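import Mathlib

set_option autoImplicit false
set_option maxHeartbeats 1000000

open Set Real Filter Topology Asymptotics

namespace Pool.Agent.Helper44.NCF

/-- Integer powers of `n + 1`. -/
noncomputable def e (j : ℤ) (n : ℕ) : ℝ := ((n : ℝ) + 1) ^ j

/-- The logarithm of `n + 1`. -/
noncomputable def ll (n : ℕ) : ℝ := log ((n : ℝ) + 1)

lemma base_pos (n : ℕ) : (0 : ℝ) < (n : ℝ) + 1 := by positivity

lemma e_pos (j : ℤ) (n : ℕ) : 0 < e j n := zpow_pos (base_pos n) _

lemma e_add (i j : ℤ) (n : ℕ) : e (i + j) n = e i n * e j n :=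
  zpow_add₀ (base_pos n).ne' i j

lemma e_zero (n : ℕ) : e 0 n = 1 := zpow_zero _

lemma e_mono {i j : ℤ} (h : i ≤ j) (n : ℕ) : e i n ≤ e j n :=
  zpow_le_zpow_right₀ (by linarith [(Nat.cast_nonneg n : (0 : ℝ) ≤ n)]) h

lemma e_bigO {i j : ℤ} (h : i ≤ j) : (e i) =O[atTop] (e j) := by
  refine IsBigO.of_bound 1 (Eventually.of_forall fun n => ?_)
  rw [norm_of_nonneg (e_pos i n).le, norm_of_nonneg (e_pos j n).le, one_mul]
  exact e_mono h n

/-- Laurent polynomials in `n + 1` of degree at most `J`. -/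
noncomputable def RL (J : ℤ) : Submodule ℝ (ℕ → ℝ) := Submodule.span ℝ (e '' Iic J)

/-- Laurent polynomials plus polynomials times the logarithm. -/
noncomputable def WL : Submodule ℝ (ℕ → ℝ) :=
  Submodule.span ℝ (range e ∪ range (fun (j : ℕ) (n : ℕ) => e j n * ll n))

lemma e_mem {j J : ℤ} (h : j ≤ J) : e j ∈ RL J := Submodule.subset_span ⟨j, h, rfl⟩

lemma RL_le (J : ℤ) : RL J ≤ WL :=
  Submodule.span_mono ((image_subset_range _ _).trans subset_union_left)

lemma RL_mono {J K : ℤ} (h : J ≤ K) : RL J ≤ RL K :=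
  Submodule.span_mono (image_mono (Iic_subset_Iic.mpr h))

lemma el_mem (j : ℕ) : (fun n => e j n * ll n) ∈ WL :=
  Submodule.subset_span (Or.inr ⟨j, rfl⟩)

lemma RL_mul_e {J : ℤ} {r : ℕ → ℝ} (hr : r ∈ RL J) {j K : ℤ} (h : j ≤ K) :
    (fun n => e j n * r n) ∈ RL (J + K) := by
  refine Submodule.span_induction (p := fun r _ => (fun n => e j n * r n) ∈ RL (J + K))
    ?_ ?_ ?_ ?_ hr
  · rintro _ ⟨i, hi, rfl⟩
    have : (fun n => e j n * e i n) = e (j + i) := by
      funext n; rw [e_add]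
    rw [this]
    refine e_mem ?_
    have : i ≤ J := hi
    omega
  · have : (fun n : ℕ => e j n * (0 : ℕ → ℝ) n) = 0 := by
      funext n; simp
    rw [this]
    exact Submodule.zero_mem _
  · intro x y _ _ hx hy
    have : (fun n => e j n * (x + y) n) = (fun n => e j n * x n) + fun n => e j n * y n := by
      funext n; simp [mul_add]
    rw [this]
    exact Submodule.add_mem _ hx hy
  · intro c x _ hx
    have : (fun n => e j n * (c • x) n) = c • fun n => e j n * x n := by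
      funext n; simp; ring
    rw [this]
    exact Submodule.smul_mem _ c hx

lemma RL_mul {J K : ℤ} {r s : ℕ → ℝ} (hr : r ∈ RL J) (hs : s ∈ RL K) :
    (fun n => r n * s n) ∈ RL (J + K) := by
  refine Submodule.span_induction (p := fun r _ => (fun n => r n * s n) ∈ RL (J + K))
    ?_ ?_ ?_ ?_ hr
  · rintro _ ⟨i, hi, rfl⟩
    rw [add_comm]
    exact RL_mul_e hs hi
  · have : (fun n : ℕ => (0 : ℕ → ℝ) n * s n) = 0 := by
      funext n; simp
    rw [this]
    exact Submodule.zero_mem _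
  · intro x y _ _ hx hy
    have : (fun n => (x + y) n * s n) = (fun n => x n * s n) + fun n => y n * s n := by
      funext n; simp [add_mul]
    rw [this]
    exact Submodule.add_mem _ hx hy
  · intro c x _ hx
    have : (fun n => (c • x) n * s n) = c • fun n => x n * s n := by
      funext n; simp; ring
    rw [this]
    exact Submodule.smul_mem _ c hx

lemma RL_growth {J : ℤ} {r : ℕ → ℝ} (hr : r ∈ RL J) : r =O[atTop] (e J) := by
  refine Submodule.span_induction (p := fun r _ => r =O[atTop] (e J))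
    ?_ ?_ ?_ ?_ hr
  · rintro _ ⟨i, hi, rfl⟩
    exact e_bigO hi
  · exact isBigO_zero _ _
  · intro x y _ _ hx hy
    exact IsBigO.add hx hy
  · intro c x _ hx
    exact hx.const_smul_left c

/-- Asymptotic expansion in integer powers at most `J`. -/
def HasR (J : ℤ) (g : ℕ → ℝ) : Prop :=
  ∀ N : ℕ, ∃ r ∈ RL J, (fun n => g n - r n) =O[atTop] (e (-(N : ℤ)))

/-- Asymptotic expansion in integer powers and polynomials times the logarithm. -/
def HasW (g : ℕ → ℝ) : Prop :=
  ∀ N : ℕ, ∃ r ∈ WL, (fun n => g n - r n) =O[atTop] (e (-(N : ℤ)))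

variable {J K : ℤ}

lemma HasR.toW {g : ℕ → ℝ} (h : HasR J g) : HasW g := fun N => by
  obtain ⟨r, hr, h⟩ := h N
  exact ⟨r, RL_le J hr, h⟩

lemma HasR.mono {g : ℕ → ℝ} (h : HasR J g) (hJK : J ≤ K) : HasR K g := fun N => by
  obtain ⟨r, hr, h⟩ := h N
  exact ⟨r, RL_mono hJK hr, h⟩

lemma HasR.of_mem {r : ℕ → ℝ} (hr : r ∈ RL J) : HasR J r := fun N =>
  ⟨r, hr, by simpa using (isBigO_zero (E' := ℝ) (e (-(N : ℤ))) atTop)⟩

lemma HasR.e (j : ℤ) : HasR j (e j) := HasR.of_mem (e_mem le_rfl)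

lemma HasW.of_mem {r : ℕ → ℝ} (hr : r ∈ WL) : HasW r := fun N =>
  ⟨r, hr, by simpa using (isBigO_zero (E' := ℝ) (NCF.e (-(N : ℤ))) atTop)⟩

lemma HasR.add {f g : ℕ → ℝ} (hf : HasR J f) (hg : HasR J g) :
    HasR J (fun n => f n + g n) := fun N => by
  obtain ⟨r, hr, h1⟩ := hf N
  obtain ⟨s, hs, h2⟩ := hg N
  refine ⟨r + s, Submodule.add_mem _ hr hs, (h1.add h2).congr_left fun n => ?_⟩
  simp only [Pi.add_apply]
  ring

lemma HasW.add {f g : ℕ → ℝ} (hf : HasW f) (hg : HasW g) : HasW (fun n => f n + g n) := fun N => by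
  obtain ⟨r, hr, h1⟩ := hf N
  obtain ⟨s, hs, h2⟩ := hg N
  refine ⟨r + s, Submodule.add_mem _ hr hs, (h1.add h2).congr_left fun n => ?_⟩
  simp only [Pi.add_apply]
  ring

lemma HasR.smul {f : ℕ → ℝ} (hf : HasR J f) (c : ℝ) : HasR J (fun n => c * f n) := fun N => by
  obtain ⟨r, hr, h1⟩ := hf N
  refine ⟨c • r, Submodule.smul_mem _ c hr, (h1.const_mul_left c).congr_left fun n => ?_⟩
  simp only [Pi.smul_apply, smul_eq_mul]
  ring

lemma HasW.smul {f : ℕ → ℝ} (hf : HasW f) (c : ℝ) : HasW (fun n => c * f n) := fun N => by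
  obtain ⟨r, hr, h1⟩ := hf N
  refine ⟨c • r, Submodule.smul_mem _ c hr, (h1.const_mul_left c).congr_left fun n => ?_⟩
  simp only [Pi.smul_apply, smul_eq_mul]
  ring

lemma HasW.congr {f g : ℕ → ℝ} (hf : HasW f) (h : ∀ᶠ n in atTop, g n = f n) : HasW g := fun N => by
  obtain ⟨r, hr, h1⟩ := hf N
  refine ⟨r, hr, h1.congr' ?_ EventuallyEq.rfl⟩
  filter_upwards [h] with n hn
  rw [hn]

lemma HasR.congr {f g : ℕ → ℝ} (hf : HasR J f) (h : ∀ᶠ n in atTop, g n = f n) :
    HasR J g := fun N => by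
  obtain ⟨r, hr, h1⟩ := hf N
  refine ⟨r, hr, h1.congr' ?_ EventuallyEq.rfl⟩
  filter_upwards [h] with n hn
  rw [hn]

lemma HasR.const (c : ℝ) : HasR 0 (fun _ => c) := by
  have h := HasR.smul (HasR.e 0) c
  simpa only [e_zero, mul_one] using h

lemma HasR.zero : HasR J (fun _ => 0) := by
  have h := HasR.smul (HasR.e J) 0
  simpa only [zero_mul] using h

lemma HasR.growth {f : ℕ → ℝ} (hf : HasR J f) : f =O[atTop] (NCF.e J) := by
  obtain ⟨r, hr, h⟩ := hf J.natAbs
  have hK := RL_growth hr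
  have h1 := (h.trans (e_bigO (show -((J.natAbs : ℕ) : ℤ) ≤ J by omega))).add hK
  exact h1.congr_left fun n => by ring

lemma bigO_mul_e {f g : ℕ → ℝ} {i j k : ℤ} (hf : f =O[atTop] (NCF.e i))
    (hg : g =O[atTop] (NCF.e j))
    (h : i + j ≤ k) : (fun n => f n * g n) =O[atTop] (NCF.e k) := by
  refine (hf.mul hg).trans ?_
  have : (fun n => NCF.e i n * NCF.e j n) = NCF.e (i + j) := by funext n; rw [e_add]
  rw [this]
  exact e_bigO h

lemma HasR.mul {f g : ℕ → ℝ} (hf : HasR J f) (hg : HasR K g) :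
    HasR (J + K) (fun n => f n * g n) := fun N => by
  have hJ := hf.growth
  have hK := hg.growth
  obtain ⟨r, hr, h1⟩ := hf (N + K.natAbs)
  obtain ⟨s, hs, h2⟩ := hg (N + J.natAbs)
  refine ⟨fun n => r n * s n, RL_mul hr hs, ?_⟩
  have hs' := RL_growth hs
  have a1 := bigO_mul_e (k := -(N : ℤ)) hJ h2 (by omega)
  have a2 := bigO_mul_e (k := -(N : ℤ)) h1 hs' (by omega)
  exact (a1.add a2).congr_left fun n => by ring

lemma HasR.pow {f : ℕ → ℝ} (hf : HasR J f) (k : ℕ) : HasR (k * J) (fun n => f n ^ k) := by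
  induction k with
  | zero => simpa using HasR.const 1
  | succ k ih =>
    have h := ih.mul hf
    have h2 : (k : ℤ) * J + J = ((k + 1 : ℕ) : ℤ) * J := by push_cast; ring
    rw [h2] at h
    simpa only [pow_succ] using h

lemma HasR.sum {ι : Type*} {s : Finset ι} {f : ι → ℕ → ℝ} (hf : ∀ i ∈ s, HasR J (f i)) :
    HasR J (fun n => ∑ i ∈ s, f i n) := by
  classical
  induction s using Finset.induction_on with
  | empty => simpa using HasR.zero
  | insert i s hi ih =>
    simp only [Finset.sum_insert hi]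
    exact (hf i (Finset.mem_insert_self _ _)).add
      (ih fun j hj => hf j (Finset.mem_insert_of_mem hj))

lemma HasW.sum {ι : Type*} {s : Finset ι} {f : ι → ℕ → ℝ} (hf : ∀ i ∈ s, HasW (f i)) :
    HasW (fun n => ∑ i ∈ s, f i n) := by
  classical
  induction s using Finset.induction_on with
  | empty => simpa using (HasR.const 0).toW
  | insert i s hi ih =>
    simp only [Finset.sum_insert hi]
    exact (hf i (Finset.mem_insert_self _ _)).add
      (ih fun j hj => hf j (Finset.mem_insert_of_mem hj))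

lemma pow_bigO {y : ℕ → ℝ} (hy : y =O[atTop] (NCF.e (-1))) (k : ℕ) :
    (fun n => y n ^ k) =O[atTop] (NCF.e (-(k : ℤ))) := by
  induction k with
  | zero =>
    simp only [pow_zero, Nat.cast_zero, neg_zero]
    exact (isBigO_refl (NCF.e 0) atTop).congr_left fun n => e_zero n
  | succ k ih =>
    simp only [pow_succ]
    exact bigO_mul_e ih hy (by push_cast; omega)

lemma e_neg_one_tendsto : Tendsto (NCF.e (-1)) atTop (𝓝 0) := by
  have h := tendsto_one_div_add_atTop_nhds_zero_nat (𝕜 := ℝ)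
  refine h.congr fun n => ?_
  unfold NCF.e
  rw [zpow_neg_one, one_div]

/-- Geometric series. -/
lemma HasR.geom {y : ℕ → ℝ} (hy : HasR (-1) y) : HasR 0 (fun n => (1 - y n)⁻¹) := fun N => by
  have h0 := hy.growth
  have hs : HasR 0 (fun n => ∑ i ∈ Finset.range N, y n ^ i) :=
    HasR.sum fun i _ => (hy.pow i).mono (by simp)
  obtain ⟨r, hr, h1⟩ := hs N
  refine ⟨r, hr, ?_⟩
  have hy0 : Tendsto y atTop (𝓝 0) := h0.trans_tendsto e_neg_one_tendsto
  have hsm : ∀ᶠ n in atTop, |y n| ≤ 1 / 2 := by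
    have := hy0.abs
    rw [abs_zero] at this
    exact this.eventually_le_const (by norm_num)
  have h2 : (fun n => (1 - y n)⁻¹ - ∑ i ∈ Finset.range N, y n ^ i) =O[atTop]
      (NCF.e (-(N : ℤ))) := by
    refine IsBigO.trans (IsBigO.of_bound 2 ?_) (pow_bigO h0 N)
    filter_upwards [hsm] with n hn
    have h3 : 1 / 2 ≤ 1 - y n := by linarith [le_abs_self (y n)]
    have h4 : (1 - y n)⁻¹ - ∑ i ∈ Finset.range N, y n ^ i = y n ^ N * (1 - y n)⁻¹ := by
      have h5 := mul_neg_geom_sum (y n) N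
      have h6 : 1 - y n ≠ 0 := by linarith
      field_simp
      linear_combination -h5
    rw [h4, norm_mul, mul_comm]
    refine mul_le_mul_of_nonneg_right ?_ (norm_nonneg _)
    rw [norm_of_nonneg (by positivity)]
    rw [inv_le_comm₀ (by linarith) (by norm_num)]
    linarith
  exact (h2.add h1).congr_left fun n => by ring

/-- Logarithm: first terms. -/
lemma log_part {y : ℕ → ℝ} (h0 : y =O[atTop] (NCF.e (-1))) (N : ℕ) :
    (fun n => Real.log (1 - y n) - -∑ i ∈ Finset.range N, y n ^ (i + 1) / ((i : ℝ) + 1))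
      =O[atTop] (NCF.e (-((N : ℤ) + 1))) := by
  have hy0 : Tendsto y atTop (𝓝 0) := h0.trans_tendsto e_neg_one_tendsto
  have hsm : ∀ᶠ n in atTop, |y n| ≤ 1 / 2 := by
    have := hy0.abs
    rw [abs_zero] at this
    exact this.eventually_le_const (by norm_num)
  refine IsBigO.trans (IsBigO.of_bound 2 ?_) (pow_bigO h0 (N + 1))
  filter_upwards [hsm] with n hn
  have h3 := Real.abs_log_sub_add_sum_range_le (show |y n| < 1 by linarith) N
  have h4 : Real.log (1 - y n) - -∑ i ∈ Finset.range N, y n ^ (i + 1) / ((i : ℝ) + 1) =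
      (∑ i ∈ Finset.range N, y n ^ (i + 1) / ((i : ℝ) + 1)) + Real.log (1 - y n) := by ring
  rw [h4, norm_eq_abs]
  refine h3.trans ?_
  rw [norm_pow, norm_eq_abs]
  have h5 : 1 / 2 ≤ 1 - |y n| := by linarith
  rw [div_le_iff₀ (by linarith)]
  have h6 : 0 ≤ |y n| ^ (N + 1) := by positivity
  nlinarith

/-- Logarithm. -/
lemma HasR.log {y : ℕ → ℝ} (hy : HasR (-1) y) :
    HasR (-1) (fun n => Real.log (1 - y n)) := fun N => by
  have h0 := hy.growth
  have hs : HasR (-1) (fun n => -∑ i ∈ Finset.range N, y n ^ (i + 1) / ((i : ℝ) + 1)) := by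
    have h1 : HasR (-1) (fun n => ∑ i ∈ Finset.range N, (1 / ((i : ℝ) + 1)) * y n ^ (i + 1)) :=
      HasR.sum fun i _ => ((hy.pow (i + 1)).mono (by push_cast; omega)).smul _
    have h2 := h1.smul (-1)
    refine h2.congr (Eventually.of_forall fun n => ?_)
    rw [neg_one_mul]
    congr 1
    refine Finset.sum_congr rfl fun i _ => ?_
    ring
  obtain ⟨r, hr, h1⟩ := hs N
  refine ⟨r, hr, ?_⟩
  have h2 := (log_part h0 N).trans (e_bigO (show -((N : ℤ) + 1) ≤ -(N : ℤ) by omega))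
  exact (h2.add h1).congr_left fun n => by ring

end Pool.Agent.Helper44.NCF
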