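import Mathlib
import Pool.Agent.Helper44.NCF.Exp1

set_option autoImplicit false
set_option maxHeartbeats 1000000

open Set Real Filter Topology Asymptotics

namespace Pool.Agent.Helper44.NCF

/-! ### Multiplication by polynomials -/

lemma WL_mul_e {w : ℕ → ℝ} (hw : w ∈ WL) (j : ℕ) : (fun n => e j n * w n) ∈ WL := by
  refine Submodule.span_induction (p := fun r _ => (fun n => e j n * r n) ∈ WL)
    ?_ ?_ ?_ ?_ hw
  · rintro _ (⟨i, rfl⟩ | ⟨i, rfl⟩)
    · have : (fun n => e j n * e i n) = e (j + i) := by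
        funext n; rw [e_add]
      rw [this]
      exact RL_le _ (e_mem le_rfl)
    · have : (fun n => e j n * (e i n * ll n)) = fun n => e ((j + i : ℕ) : ℤ) n * ll n := by
        funext n; rw [Nat.cast_add, e_add]; ring
      simp only [this]
      exact el_mem _
  · have : (fun n : ℕ => e j n * (0 : ℕ → ℝ) n) = 0 := by
      funext n; simp
    rw [this]
    exact Submodule.zero_mem _
  · intro x y _ _ hx hy
    have : (fun n => e j n * (x + y) n) = (fun n => e j n * x n) + fun n => e j n * y n := by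
      funext n; simp [mul_add]
    rw [this]
    exact Submodule.add_mem _ hx hy
  · intro c x _ hx
    have : (fun n => e j n * (c • x) n) = c • fun n => e j n * x n := by
      funext n; simp; ring
    rw [this]
    exact Submodule.smul_mem _ c hx

lemma HasW.mul_e {g : ℕ → ℝ} (hg : HasW g) (j : ℕ) : HasW (fun n => e j n * g n) := fun N => by
  obtain ⟨w, hw, h⟩ := hg (N + j)
  refine ⟨_, WL_mul_e hw j, ?_⟩
  have := bigO_mul_e (k := -(N : ℤ)) (isBigO_refl (e j) atTop) h (by push_cast; omega)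
  exact this.congr_left fun n => by ring

lemma poly_shift (p : Polynomial ℝ) (n : ℕ) :
    p.eval (n : ℝ) = ∑ i ∈ Finset.range ((p.comp (Polynomial.X - 1)).natDegree + 1),
      (p.comp (Polynomial.X - 1)).coeff i * e i n := by
  have h : p.eval (n : ℝ) = (p.comp (Polynomial.X - 1)).eval ((n : ℝ) + 1) := by
    simp
  rw [h, Polynomial.eval_eq_sum_range]
  refine Finset.sum_congr rfl fun i _ => ?_
  unfold e
  rw [zpow_natCast]

lemma HasW.mul_poly {g : ℕ → ℝ} (hg : HasW g) (p : Polynomial ℝ) :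
    HasW (fun n => p.eval (n : ℝ) * g n) := by
  have h : HasW (fun n => ∑ i ∈ Finset.range ((p.comp (Polynomial.X - 1)).natDegree + 1),
      (p.comp (Polynomial.X - 1)).coeff i * (e i n * g n)) :=
    HasW.sum fun i _ => (hg.mul_e i).smul _
  refine h.congr (Eventually.of_forall fun n => ?_)
  rw [poly_shift, Finset.sum_mul]
  refine Finset.sum_congr rfl fun i _ => ?_
  ring

/-! ### Substitutions -/

/-- The correction term of a substitution. -/
noncomputable def ys (a b : ℕ) (n : ℕ) : ℝ := (((a : ℝ) - b - 1) / a) * e (-1) n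

lemma ys_HasR (a b : ℕ) : HasR (-1) (ys a b) := (HasR.e (-1)).smul _

lemma sub_base {a b : ℕ} (ha : 0 < a) (n : ℕ) :
    ((a * n + b : ℕ) : ℝ) + 1 = a * (((n : ℝ) + 1) * (1 - ys a b n)) := by
  have ha' : (a : ℝ) ≠ 0 := by positivity
  have hn := (base_pos n).ne'
  unfold ys e
  rw [zpow_neg_one]
  push_cast
  field_simp
  ring

lemma one_sub_ys {a b : ℕ} (ha : 0 < a) (n : ℕ) : 0 < 1 - ys a b n := by
  have h := sub_base (b := b) ha n
  have h1 : 0 < ((a * n + b : ℕ) : ℝ) + 1 := by positivity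
  rw [h] at h1
  have ha' : (0 : ℝ) < a := by positivity
  have h2 := pos_of_mul_pos_right h1 ha'.le
  exact pos_of_mul_pos_right h2 (base_pos n).le

lemma e_sub {a b : ℕ} (ha : 0 < a) (j : ℤ) : HasW (fun n => e j (a * n + b)) := by
  have ha' : (0 : ℝ) < a := by positivity
  rcases le_or_gt 0 j with hj | hj
  · obtain ⟨k, rfl⟩ := Int.eq_ofNat_of_zero_le hj
    have h1 := ((((HasR.e 1).mul ((HasR.const 1).add (((ys_HasR a b).smul (-1)).mono
      (show (-1 : ℤ) ≤ 0 by omega)))).smul (a : ℝ)).pow k).toW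
    refine h1.congr (Eventually.of_forall fun n => ?_)
    change (((a * n + b : ℕ) : ℝ) + 1) ^ ((k : ℕ) : ℤ) = _
    rw [zpow_natCast, sub_base ha n]
    unfold e
    rw [zpow_one]
    ring
  · obtain ⟨k, hk⟩ := Int.eq_ofNat_of_zero_le (show 0 ≤ -j by omega)
    have hj' : j = -(k : ℤ) := by omega
    have h1 := ((((HasR.e (-1)).mul (ys_HasR a b).geom).smul (1 / (a : ℝ))).pow k).toW
    refine h1.congr (Eventually.of_forall fun n => ?_)
    change (((a * n + b : ℕ) : ℝ) + 1) ^ j = _
    rw [hj', zpow_neg, zpow_natCast, sub_base ha n, ← inv_pow]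
    congr 1
    unfold e
    rw [zpow_neg_one, mul_inv, mul_inv]
    ring

lemma ll_sub {a b : ℕ} (ha : 0 < a) : HasW (fun n => ll (a * n + b)) := by
  have ha' : (0 : ℝ) < a := by positivity
  have h1 : HasW (fun n => (Real.log a + 1 * (e (0 : ℕ) n * ll n)) + Real.log (1 - ys a b n)) :=
    ((HasR.const _).toW.add ((HasW.of_mem (el_mem 0)).smul 1)).add
      (ys_HasR a b).log.toW
  refine h1.congr (Eventually.of_forall fun n => ?_)
  unfold ll
  rw [sub_base ha n, Real.log_mul ha'.ne' (mul_pos (base_pos n) (one_sub_ys ha n)).ne',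
    Real.log_mul (base_pos n).ne' (one_sub_ys ha n).ne']
  simp only [Nat.cast_zero, e_zero]
  ring

lemma e_natCast_sub (a b j : ℕ) (n : ℕ) :
    e j (a * n + b) = ((Polynomial.C (a : ℝ) * Polynomial.X + Polynomial.C ((b : ℝ) + 1)) ^ j).eval
      (n : ℝ) := by
  unfold e
  simp
  ring_nf

lemma HasW.subst {g : ℕ → ℝ} (hg : HasW g) {a : ℕ} (ha : 0 < a) (b : ℕ) :
    HasW (fun n => g (a * n + b)) := by
  have hW : ∀ w ∈ WL, HasW (fun n => w (a * n + b)) := by
    intro w hw
    refine Submodule.span_induction (p := fun w _ => HasW (fun n => w (a * n + b)))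
      ?_ ?_ ?_ ?_ hw
    · rintro _ (⟨j, rfl⟩ | ⟨j, rfl⟩)
      · exact e_sub ha j
      · have h := (ll_sub (b := b) ha).mul_poly
          ((Polynomial.C (a : ℝ) * Polynomial.X + Polynomial.C ((b : ℝ) + 1)) ^ j)
        refine h.congr (Eventually.of_forall fun n => ?_)
        simp only
        rw [e_natCast_sub]
    · exact (HasR.const 0).toW
    · intro x y _ _ hx hy
      exact hx.add hy
    · intro c x _ hx
      exact hx.smul c
  intro N
  obtain ⟨w, hw, h⟩ := hg N
  obtain ⟨w', hw', h'⟩ := hW w hw N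
  refine ⟨w', hw', ?_⟩
  have hT : Tendsto (fun n : ℕ => a * n + b) atTop atTop :=
    tendsto_atTop_mono (fun n => by simp only [id]; nlinarith) tendsto_id
  have h2 := h.comp_tendsto hT
  have h3 : ((e (-(N : ℤ))) ∘ fun n : ℕ => a * n + b) =O[atTop] (e (-(N : ℤ))) := by
    refine IsBigO.of_bound 1 (Eventually.of_forall fun n => ?_)
    rw [Function.comp_apply, norm_of_nonneg (e_pos _ _).le, norm_of_nonneg (e_pos _ _).le, one_mul]
    unfold e
    rw [zpow_neg, zpow_neg, zpow_natCast, zpow_natCast]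
    have h4 : (n : ℝ) ≤ ((a * n + b : ℕ) : ℝ) := by
      have : n ≤ a * n + b := by nlinarith
      exact_mod_cast this
    have h5 : ((n : ℝ) + 1) ^ N ≤ (((a * n + b : ℕ) : ℝ) + 1) ^ N := by gcongr
    exact inv_anti₀ (by positivity) h5
  exact ((h2.trans h3).add h').congr_left fun n => by
    simp only [Function.comp_apply]
    ring

/-! ### Logarithm of a polynomial -/

lemma log_poly {p : Polynomial ℝ} (hp : p ≠ 0) : HasW (fun n : ℕ => Real.log (p.eval (n : ℝ))) := by
  set q := p.comp (Polynomial.X - 1) with hq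
  have hq0 : q ≠ 0 := by
    intro h
    rw [hq] at h
    have h1 : p = (p.comp (Polynomial.X - 1)).comp (Polynomial.X + 1) := by
      rw [Polynomial.comp_assoc]
      simp
    rw [h] at h1
    simp at h1
    exact hp h1
  set d := q.natDegree with hd
  set c := q.leadingCoeff with hc
  have hc0 : c ≠ 0 := Polynomial.leadingCoeff_ne_zero.mpr hq0
  set y : ℕ → ℝ := fun n => ∑ i ∈ Finset.range d, (-(q.coeff i) / c) * e ((i : ℤ) - d) n with hy
  have hyR : HasR (-1) y := by
    refine HasR.sum fun i hi => ?_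
    have := Finset.mem_range.mp hi
    exact ((HasR.e _).mono (show (i : ℤ) - d ≤ -1 by omega)).smul _
  have hyO : y =O[atTop] (e (-1)) := hyR.growth
  have hid : ∀ n : ℕ, p.eval (n : ℝ) = c * (e d n * (1 - y n)) := by
    intro n
    rw [poly_shift, ← hq, ← hd, Finset.sum_range_succ]
    have h1 : q.coeff d = c := rfl
    rw [h1]
    simp only [hy, mul_sub, mul_one, Finset.mul_sum]
    have h2 : ∀ i ∈ Finset.range d, c * (e d n * (-(q.coeff i) / c * e ((i : ℤ) - d) n)) =
        -(q.coeff i * e i n) := by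
      intro i _
      have h3 : e (i : ℤ) n = e d n * e ((i : ℤ) - d) n := by
        rw [← e_add]; congr 1; ring
      rw [h3]
      field_simp
    rw [Finset.sum_congr rfl h2, Finset.sum_neg_distrib]
    ring
  have h1 : HasW (fun n => (Real.log c + (d : ℝ) * (e (0 : ℕ) n * ll n)) + Real.log (1 - y n)) :=
    ((HasR.const _).toW.add ((HasW.of_mem (el_mem 0)).smul _)).add hyR.log.toW
  have hy0 : Tendsto y atTop (𝓝 0) := hyO.trans_tendsto e_neg_one_tendsto
  have hsm : ∀ᶠ n in atTop, y n < 1 := hy0.eventually_lt_const one_pos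
  refine h1.congr ?_
  filter_upwards [hsm] with n hn
  have h3 : 0 < 1 - y n := by linarith
  rw [hid, Real.log_mul hc0 (mul_pos (e_pos _ _) h3).ne', Real.log_mul (e_pos _ _).ne' h3.ne']
  simp only [Nat.cast_zero, e_zero]
  unfold e ll
  rw [zpow_natCast, Real.log_pow]
  ring

end Pool.Agent.Helper44.NCF
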