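import Mathlib
import Pool.Agent.Helper44.NCF.Exp2

set_option autoImplicit false
set_option maxHeartbeats 1000000

open Set Real Filter Topology Asymptotics

namespace Pool.Agent.Helper44.NCF

/-- `g` has an approximate primitive. -/
def Summ (N : ℕ) (g : ℕ → ℝ) : Prop :=
  ∃ w ∈ WL, (fun n => g n - (w (n + 1) - w n)) =O[atTop] (e (-(N : ℤ)))

variable {N : ℕ}

lemma Summ.add {f g : ℕ → ℝ} (hf : Summ N f) (hg : Summ N g) : Summ N (fun n => f n + g n) := by
  obtain ⟨v, hv, h1⟩ := hf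
  obtain ⟨w, hw, h2⟩ := hg
  refine ⟨v + w, Submodule.add_mem _ hv hw, (h1.add h2).congr_left fun n => ?_⟩
  simp only [Pi.add_apply]
  ring

lemma Summ.smul {f : ℕ → ℝ} (hf : Summ N f) (c : ℝ) : Summ N (fun n => c * f n) := by
  obtain ⟨v, hv, h1⟩ := hf
  refine ⟨c • v, Submodule.smul_mem _ c hv, (h1.const_mul_left c).congr_left fun n => ?_⟩
  simp only [Pi.smul_apply, smul_eq_mul]
  ring

lemma Summ.zero : Summ N (fun _ => 0) :=
  ⟨0, Submodule.zero_mem _, by simpa using (isBigO_zero (E' := ℝ) (e (-(N : ℤ))) atTop)⟩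

lemma Summ.of_bigO {f : ℕ → ℝ} (hf : f =O[atTop] (e (-(N : ℤ)))) : Summ N f :=
  ⟨0, Submodule.zero_mem _, by simpa using hf⟩

lemma Summ.congr {f g : ℕ → ℝ} (hf : Summ N f) (h : ∀ n, g n = f n) : Summ N g := by
  have : g = f := funext h
  rw [this]; exact hf

lemma Summ.delta {w : ℕ → ℝ} (hw : w ∈ WL) : Summ N (fun n => w (n + 1) - w n) :=
  ⟨w, hw, by simpa using (isBigO_zero (E' := ℝ) (e (-(N : ℤ))) atTop)⟩

lemma Summ.sum {ι : Type*} {s : Finset ι} {f : ι → ℕ → ℝ} (hf : ∀ i ∈ s, Summ N (f i)) :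
    Summ N (fun n => ∑ i ∈ s, f i n) := by
  classical
  induction s using Finset.induction_on with
  | empty => simpa using Summ.zero
  | insert i s hi ih =>
    simp only [Finset.sum_insert hi]
    exact (hf i (Finset.mem_insert_self _ _)).add
      (ih fun j hj => hf j (Finset.mem_insert_of_mem hj))

lemma base_succ (n : ℕ) : ((n + 1 : ℕ) : ℝ) + 1 = ((n : ℝ) + 1) * (1 + e (-1) n) := by
  unfold e
  have := (base_pos n).ne'
  rw [zpow_neg_one]
  push_cast
  field_simp

lemma one_add_pos (n : ℕ) : 0 < 1 + e (-1) n := by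
  have := e_pos (-1) n
  linarith

lemma e_succ (m : ℤ) (n : ℕ) : e m (n + 1) = e m n * (1 + e (-1) n) ^ m := by
  change (((n + 1 : ℕ) : ℝ) + 1) ^ m = _
  rw [base_succ, mul_zpow]
  rfl

lemma inv_HasR : HasR 0 (fun n => (1 + e (-1) n)⁻¹) := by
  have h := ((HasR.e (-1)).smul (-1)).geom
  refine h.congr (Eventually.of_forall fun n => ?_)
  congr 1
  ring

lemma lin_HasR : HasR 0 (fun n => 1 + e (-1) n) :=
  (HasR.const 1).add ((HasR.e (-1)).mono (by omega))

lemma e_sq (n : ℕ) : e (-1) n ^ 2 = e (-2) n := by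
  rw [pow_two, ← e_add]
  norm_num

lemma pow_taylor (k : ℕ) :
    HasR (-2) (fun n => (1 + e (-1) n) ^ k - 1 - k * e (-1) n) := by
  induction k with
  | zero => simpa using HasR.zero
  | succ k ih =>
    have h1 := lin_HasR.mul ih
    rw [zero_add] at h1
    refine (h1.add ((HasR.e (-2)).smul (k : ℝ))).congr (Eventually.of_forall fun n => ?_)
    rw [← e_sq]
    push_cast
    ring

lemma inv_pow_taylor (k : ℕ) :
    HasR (-2) (fun n => ((1 + e (-1) n)⁻¹) ^ k - 1 + k * e (-1) n) := by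
  induction k with
  | zero => simpa using HasR.zero
  | succ k ih =>
    have h1 := inv_HasR.mul ih
    have h2 := inv_HasR.mul ((HasR.e (-2)).smul ((k : ℝ) + 1))
    rw [zero_add] at h1 h2
    refine (h1.add h2).congr (Eventually.of_forall fun n => ?_)
    rw [← e_sq]
    have := (one_add_pos n).ne'
    push_cast
    rw [pow_succ]
    field_simp
    ring

lemma zpow_taylor (m : ℤ) :
    HasR (-2) (fun n => (1 + e (-1) n) ^ m - 1 - m * e (-1) n) := by
  rcases le_or_gt 0 m with hm | hm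
  · obtain ⟨k, rfl⟩ := Int.eq_ofNat_of_zero_le hm
    refine (pow_taylor k).congr (Eventually.of_forall fun n => ?_)
    simp
  · obtain ⟨k, hk⟩ := Int.eq_ofNat_of_zero_le (show 0 ≤ -m by omega)
    have hm' : m = -(k : ℤ) := by omega
    rw [hm']
    refine (inv_pow_taylor k).congr (Eventually.of_forall fun n => ?_)
    rw [zpow_neg, zpow_natCast, inv_pow]
    push_cast
    ring

lemma delta_e (m : ℤ) :
    HasR (m - 2) (fun n => e m (n + 1) - e m n - m * e (m - 1) n) := by
  have h := (HasR.e m).mul (zpow_taylor m)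
  rw [← sub_eq_add_neg] at h
  refine h.congr (Eventually.of_forall fun n => ?_)
  rw [e_succ, show m - 1 = m + -1 by ring, e_add]
  ring

lemma HasR.log2 {y : ℕ → ℝ} (hy : HasR (-1) y) :
    HasR (-2) (fun n => Real.log (1 - y n) + y n) := fun N => by
  have h0 := hy.growth
  have hs : HasR (-2) (fun n => -∑ i ∈ Finset.range N, y n ^ (i + 2) / ((i : ℝ) + 2)) := by
    have h1 : HasR (-2) (fun n => ∑ i ∈ Finset.range N, (1 / ((i : ℝ) + 2)) * y n ^ (i + 2)) :=
      HasR.sum fun i _ => ((hy.pow (i + 2)).mono (by push_cast; omega)).smul _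
    have h2 := h1.smul (-1)
    refine h2.congr (Eventually.of_forall fun n => ?_)
    rw [neg_one_mul]
    congr 1
    refine Finset.sum_congr rfl fun i _ => ?_
    ring
  obtain ⟨r, hr, h1⟩ := hs N
  refine ⟨r, hr, ?_⟩
  have h2 := (log_part h0 (N + 1)).trans
    (e_bigO (show -(((N + 1 : ℕ) : ℤ) + 1) ≤ -(N : ℤ) by push_cast; omega))
  refine (h2.add h1).congr_left fun n => ?_
  rw [Finset.sum_range_succ']
  simp only [Nat.cast_zero, zero_add, pow_one, div_one]
  have h3 : ∀ i ∈ Finset.range N, y n ^ (i + 1 + 1) / (((i + 1 : ℕ) : ℝ) + 1) =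
      y n ^ (i + 2) / ((i : ℝ) + 2) := by
    intro i _
    push_cast
    congr 1
    ring
  rw [Finset.sum_congr rfl h3]
  ring

lemma ll_succ (n : ℕ) : ll (n + 1) - ll n = Real.log (1 - (-1) * e (-1) n) := by
  unfold ll
  rw [base_succ, Real.log_mul (base_pos n).ne' (one_add_pos n).ne']
  have : 1 - (-1) * e (-1) n = 1 + e (-1) n := by ring
  rw [this]
  ring

lemma delta_ll : HasR (-2) (fun n => ll (n + 1) - ll n - e (-1) n) := by
  refine ((HasR.e (-1)).smul (-1)).log2.congr (Eventually.of_forall fun n => ?_)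
  rw [ll_succ]
  ring

lemma delta_ll' : HasR (-1) (fun n => ll (n + 1) - ll n) := by
  refine ((HasR.e (-1)).smul (-1)).log.congr (Eventually.of_forall fun n => ?_)
  rw [ll_succ]

/-! ### Approximate primitives -/

lemma summ_of_RL {J : ℤ} (h : ∀ i ≤ J, Summ N (e i)) {r : ℕ → ℝ} (hr : r ∈ RL J) : Summ N r := by
  refine Submodule.span_induction (p := fun r _ => Summ N r) ?_ ?_ ?_ ?_ hr
  · rintro _ ⟨i, hi, rfl⟩
    exact h i hi
  · exact Summ.zero
  · intro x y _ _ hx hy
    exact hx.add hy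
  · intro c x _ hx
    exact hx.smul c

lemma summ_of_HasR {J : ℤ} (h : ∀ i ≤ J, Summ N (e i)) {g : ℕ → ℝ} (hg : HasR J g) :
    Summ N g := by
  obtain ⟨r, hr, h1⟩ := hg N
  exact ((Summ.of_bigO h1).add (summ_of_RL h hr)).congr fun n => by ring

lemma summ_e_aux (k : ℕ) : ∀ j : ℤ, j ≤ -(N : ℤ) + k → Summ N (e j) := by
  induction k with
  | zero =>
    intro j hj
    exact Summ.of_bigO (e_bigO (by simpa using hj))
  | succ k ih =>
    intro j hj
    rcases le_or_gt j (-(N : ℤ) + k) with h1 | h1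
    · exact ih j h1
    have ih' : ∀ i ≤ j - 1, Summ N (e i) := fun i hi => ih i (by push_cast at hj; omega)
    by_cases hj1 : j = -1
    · subst hj1
      have h2 := summ_of_HasR ih' (delta_ll.mono (by omega))
      have h3 := Summ.delta (N := N) (el_mem 0)
      refine (h3.add (h2.smul (-1))).congr fun n => ?_
      simp only [Nat.cast_zero, e_zero]
      ring
    · have hj2 : (j : ℝ) + 1 ≠ 0 := by
        intro h
        apply hj1
        have : ((j + 1 : ℤ) : ℝ) = 0 := by push_cast; exact h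
        have := Int.cast_eq_zero.mp this
        omega
      have h2 := summ_of_HasR ih' ((delta_e (j + 1)).mono (show j + 1 - 2 ≤ j - 1 by omega))
      have h3 := Summ.delta (N := N) (RL_le _ (e_mem (le_refl (j + 1))))
      refine ((h3.add (h2.smul (-1))).smul (1 / ((j : ℝ) + 1))).congr fun n => ?_
      rw [show j + 1 - 1 = j by ring]
      push_cast
      field_simp
      ring

lemma summ_e (j : ℤ) : Summ N (e j) :=
  summ_e_aux (j + N).toNat j (by omega)

lemma summ_HasR {J : ℤ} {g : ℕ → ℝ} (hg : HasR J g) : Summ N g :=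
  summ_of_HasR (fun i _ => summ_e i) hg

lemma e_binom (j : ℕ) (n : ℕ) : e ((j + 1 : ℕ) : ℤ) (n + 1) = e ((j + 1 : ℕ) : ℤ) n +
    (((j : ℝ) + 1) * e j n + ∑ i ∈ Finset.range j, ((j + 1).choose i : ℝ) * e i n) := by
  have h1 : e ((j + 1 : ℕ) : ℤ) (n + 1) = (((n : ℝ) + 1) + 1) ^ (j + 1) := by
    unfold e
    rw [zpow_natCast]
    push_cast
    rfl
  rw [h1, add_pow, Finset.sum_range_succ, Finset.sum_range_succ]
  simp only [one_pow, mul_one, Nat.choose_self, Nat.cast_one]
  have h2 : (((j + 1).choose j : ℕ) : ℝ) = (j : ℝ) + 1 := by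
    rw [Nat.choose_succ_self_right]
    push_cast
    ring
  rw [h2]
  unfold e
  rw [zpow_natCast, zpow_natCast]
  have h3 : ∑ x ∈ Finset.range j, ((n : ℝ) + 1) ^ x * (((j + 1).choose x : ℕ) : ℝ) =
      ∑ x ∈ Finset.range j, (((j + 1).choose x : ℕ) : ℝ) * ((n : ℝ) + 1) ^ ((x : ℕ) : ℤ) := by
    refine Finset.sum_congr rfl fun x _ => ?_
    rw [zpow_natCast]
    ring
  rw [h3]
  ring

lemma summ_el (j : ℕ) : Summ N (fun n => e j n * ll n) := by
  induction j using Nat.strong_induction_on with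
  | _ j ih =>
    have h1 := Summ.delta (N := N) (el_mem (j + 1))
    have h2 : Summ N (fun n => ∑ i ∈ Finset.range j, ((j + 1).choose i : ℝ) * (e i n * ll n)) :=
      Summ.sum fun i hi => (ih i (Finset.mem_range.mp hi)).smul _
    have h3 : HasR ((j : ℤ) + 1) (fun n => e ((j + 1 : ℕ) : ℤ) (n + 1)) := by
      have a1 : HasR ((j : ℤ) + 1) (fun n => e ((j + 1 : ℕ) : ℤ) n) :=
        (HasR.e _).mono (by push_cast; omega)
      have a2 : HasR ((j : ℤ) + 1) (fun n => ((j : ℝ) + 1) * e j n) :=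
        ((HasR.e _).mono (by omega)).smul _
      have a3 : HasR ((j : ℤ) + 1)
          (fun n => ∑ i ∈ Finset.range j, ((j + 1).choose i : ℝ) * e i n) :=
        HasR.sum fun i hi => ((HasR.e _).mono (by have := Finset.mem_range.mp hi; omega)).smul _
      exact (a1.add (a2.add a3)).congr (Eventually.of_forall fun n => e_binom j n)
    have h4 := summ_HasR (N := N) (h3.mul delta_ll')
    refine (((h1.add (h2.smul (-1))).add (h4.smul (-1))).smul (1 / ((j : ℝ) + 1))).congr
      fun n => ?_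
    have h5 := e_binom j n
    have h6 : ∑ i ∈ Finset.range j, ((j + 1).choose i : ℝ) * (e i n * ll n) =
        (∑ i ∈ Finset.range j, ((j + 1).choose i : ℝ) * e i n) * ll n := by
      rw [Finset.sum_mul]
      exact Finset.sum_congr rfl fun i _ => by ring
    rw [h6]
    set S := ∑ i ∈ Finset.range j, ((j + 1).choose i : ℝ) * e i n with hS
    have h7 : e ((j + 1 : ℕ) : ℤ) (n + 1) * ll (n + 1) - e ((j + 1 : ℕ) : ℤ) n * ll n +
        -1 * (S * ll n) + -1 * (e ((j + 1 : ℕ) : ℤ) (n + 1) * (ll (n + 1) - ll n)) =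
        ((j : ℝ) + 1) * (e j n * ll n) := by
      rw [h5]
      ring
    rw [h7]
    have hj : (j : ℝ) + 1 ≠ 0 := by positivity
    field_simp

lemma summ_WL {w : ℕ → ℝ} (hw : w ∈ WL) : Summ N w := by
  refine Submodule.span_induction (p := fun r _ => Summ N r) ?_ ?_ ?_ ?_ hw
  · rintro _ (⟨i, rfl⟩ | ⟨i, rfl⟩)
    · exact summ_e i
    · exact summ_el i
  · exact Summ.zero
  · intro x y _ _ hx hy
    exact hx.add hy
  · intro c x _ hx
    exact hx.smul c

lemma summ_HasW {g : ℕ → ℝ} (hg : HasW g) : Summ N g := by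
  obtain ⟨r, hr, h1⟩ := hg N
  exact ((Summ.of_bigO h1).add (summ_WL hr)).congr fun n => by ring

/-! ### Convergence -/

lemma e_gap (N : ℕ) (hN : 1 ≤ N) (n : ℕ) :
    e (-((N : ℤ) + 1)) n ≤ 2 ^ (N + 1) * (e (-(N : ℤ)) n - e (-(N : ℤ)) (n + 1)) := by
  have hB := base_pos n
  set B := (n : ℝ) + 1 with hBd
  have h1 : e (-((N : ℤ) + 1)) n = 1 / B ^ (N + 1) := by
    unfold e
    rw [← hBd, zpow_neg, show (N : ℤ) + 1 = ((N + 1 : ℕ) : ℤ) by push_cast; rfl, zpow_natCast,
      one_div]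
  have h2 : e (-(N : ℤ)) n = 1 / B ^ N := by
    unfold e
    rw [← hBd, zpow_neg, zpow_natCast, one_div]
  have h3 : e (-(N : ℤ)) (n + 1) = 1 / (B + 1) ^ N := by
    unfold e
    rw [zpow_neg, zpow_natCast, one_div, hBd]
    push_cast
    rfl
  rw [h1, h2, h3]
  have hB1 : 1 ≤ B := by rw [hBd]; linarith [(Nat.cast_nonneg n : (0 : ℝ) ≤ n)]
  have hb : 1 + 1 / B ≤ (1 + 1 / B) ^ N := by
    calc 1 + 1 / B = (1 + 1 / B) ^ 1 := (pow_one _).symm
      _ ≤ _ := pow_le_pow_right₀ (by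
        have : 0 ≤ 1 / B := by positivity
        linarith) hN
  have h4 : (B + 1) ^ N = B ^ N * (1 + 1 / B) ^ N := by
    rw [← mul_pow]
    congr 1
    field_simp
  have h5 : 1 / B ^ N - 1 / (B + 1) ^ N = ((1 + 1 / B) ^ N - 1) / (B + 1) ^ N := by
    rw [h4]
    have : (1 + 1 / B) ^ N ≠ 0 := by positivity
    field_simp
  have h6 : (1 / B) / (B + 1) ^ N ≤ 1 / B ^ N - 1 / (B + 1) ^ N := by
    rw [h5]
    gcongr
    linarith
  have h7 : (B + 1) ^ N ≤ (2 * B) ^ N := by
    gcongr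
    linarith
  calc 1 / B ^ (N + 1) = 2 ^ N * ((1 / B) / (2 * B) ^ N) := by
        rw [mul_pow, pow_succ]
        field_simp
    _ ≤ 2 ^ N * ((1 / B) / (B + 1) ^ N) := by gcongr
    _ ≤ 2 ^ N * (1 / B ^ N - 1 / (B + 1) ^ N) := by gcongr
    _ ≤ 2 ^ (N + 1) * (1 / B ^ N - 1 / (B + 1) ^ N) := by
        have h8 : 0 ≤ 1 / B ^ N - 1 / (B + 1) ^ N := le_trans (by positivity) h6
        gcongr
        · norm_num
        · omega

lemma e_tendsto_zero {N : ℕ} (hN : 1 ≤ N) : Tendsto (e (-(N : ℤ))) atTop (𝓝 0) :=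
  (e_bigO (show -(N : ℤ) ≤ -1 by omega)).trans_tendsto e_neg_one_tendsto

lemma conv_of_delta {N : ℕ} (hN : 1 ≤ N) {u : ℕ → ℝ}
    (h : (fun n => u (n + 1) - u n) =O[atTop] (e (-((N : ℤ) + 1)))) :
    ∃ C : ℝ, (fun n => u n - C) =O[atTop] (e (-(N : ℤ))) := by
  obtain ⟨M, hM, hb⟩ := h.exists_pos
  rw [IsBigOWith] at hb
  obtain ⟨n0, hn0⟩ := eventually_atTop.mp hb
  set M' := M * 2 ^ (N + 1) with hM'
  have hM'0 : 0 < M' := by positivity
  have step : ∀ n ≥ n0, |u (n + 1) - u n| ≤ M' * (e (-(N : ℤ)) n - e (-(N : ℤ)) (n + 1)) := by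
    intro n hn
    have h1 := hn0 n hn
    rw [norm_eq_abs, norm_of_nonneg (e_pos _ _).le] at h1
    calc _ ≤ M * e (-((N : ℤ) + 1)) n := h1
      _ ≤ M * (2 ^ (N + 1) * (e (-(N : ℤ)) n - e (-(N : ℤ)) (n + 1))) := by
          gcongr
          exact e_gap N hN n
      _ = _ := by rw [hM']; ring
  have tele : ∀ n ≥ n0, ∀ m ≥ n, |u m - u n| ≤ M' * (e (-(N : ℤ)) n - e (-(N : ℤ)) m) := by
    intro n hn m hm
    induction m, hm using Nat.le_induction with
    | base => simp
    | succ m hm ih =>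
      have h2 := step m (hn.trans hm)
      calc |u (m + 1) - u n| = |(u (m + 1) - u m) + (u m - u n)| := by congr 1; ring
        _ ≤ |u (m + 1) - u m| + |u m - u n| := abs_add_le _ _
        _ ≤ _ := by linarith
  have tele' : ∀ n ≥ n0, ∀ m ≥ n, |u m - u n| ≤ M' * e (-(N : ℤ)) n := by
    intro n hn m hm
    refine (tele n hn m hm).trans ?_
    have := e_pos (-(N : ℤ)) m
    gcongr
    linarith
  have hcau : CauchySeq fun k => u (n0 + k) := by
    refine cauchySeq_of_le_tendsto_0 (fun k => 2 * (M' * e (-(N : ℤ)) (n0 + k))) ?_ ?_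
    · intro i j k hi hj
      rw [Real.dist_eq]
      have h1 := tele' (n0 + k) (by omega) (n0 + i) (by omega)
      have h2 := tele' (n0 + k) (by omega) (n0 + j) (by omega)
      calc |u (n0 + i) - u (n0 + j)| =
            |(u (n0 + i) - u (n0 + k)) - (u (n0 + j) - u (n0 + k))| := by congr 1; ring
        _ ≤ |u (n0 + i) - u (n0 + k)| + |u (n0 + j) - u (n0 + k)| := abs_sub _ _
        _ ≤ _ := by linarith
    · have h1 := (e_tendsto_zero hN).comp (tendsto_atTop_mono (fun k => Nat.le_add_left k n0)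
        tendsto_id)
      have h2 := (h1.const_mul M').const_mul 2
      simpa using h2
  obtain ⟨C, hC⟩ := cauchySeq_tendsto_of_complete hcau
  have hC' : Tendsto u atTop (𝓝 C) := by
    rw [← tendsto_add_atTop_iff_nat n0]
    refine hC.congr fun k => ?_
    rw [add_comm]
  refine ⟨C, IsBigO.of_bound M' ?_⟩
  filter_upwards [eventually_ge_atTop n0] with n hn
  rw [norm_eq_abs, norm_of_nonneg (e_pos _ _).le, abs_sub_comm]
  have h1 : Tendsto (fun m => |u m - u n|) atTop (𝓝 |C - u n|) := (hC'.sub_const _).abs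
  refine le_of_tendsto h1 ?_
  filter_upwards [eventually_ge_atTop n] with m hm
  exact tele' n hn m hm

/-- Closure under indefinite sums. -/
lemma HasW.sumRange {g : ℕ → ℝ} (hg : HasW g) :
    HasW (fun n => ∑ k ∈ Finset.range n, g k) := fun N => by
  obtain ⟨w, hw, h⟩ := summ_HasW (N := N + 2) hg
  have h1 : (fun n => (fun n => (∑ k ∈ Finset.range n, g k) - w n) (n + 1) -
      (fun n => (∑ k ∈ Finset.range n, g k) - w n) n) =O[atTop]
        (e (-(((N + 1 : ℕ) : ℤ) + 1))) := by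
    have h2 : (-(((N + 1 : ℕ) : ℤ) + 1)) = -((N + 2 : ℕ) : ℤ) := by push_cast; ring
    rw [h2]
    refine h.congr_left fun n => ?_
    simp only [Finset.sum_range_succ]
    ring
  obtain ⟨C, hC⟩ := conv_of_delta (show 1 ≤ N + 1 by omega)
    (u := fun n => (∑ k ∈ Finset.range n, g k) - w n) h1
  have hc : (fun _ : ℕ => C) ∈ WL := by
    have h3 := Submodule.smul_mem WL C (RL_le 0 (e_mem (le_refl 0)))
    have h4 : (C • e 0) = fun _ : ℕ => C := by
      funext n
      simp [e_zero]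
    rw [← h4]
    exact h3
  refine ⟨w + fun _ => C, Submodule.add_mem _ hw hc, ?_⟩
  have h5 := hC.trans (e_bigO (show -((N + 1 : ℕ) : ℤ) ≤ -(N : ℤ) by push_cast; omega))
  refine h5.congr_left fun n => ?_
  simp only [Pi.add_apply]
  ring

end Pool.Agent.Helper44.NCF
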