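import Mathlib
import Pool.Agent.Helper44.NCF.Exp3

set_option autoImplicit false
set_option maxHeartbeats 1000000

open Set Real Filter Topology Asymptotics

namespace Pool.Agent.Helper44.NCF

lemma WL_form {w : ℕ → ℝ} (hw : w ∈ WL) : ∃ P Q : Polynomial ℝ,
    (fun n : ℕ => w n - (P.eval ((n : ℝ) + 1) * ll n + Q.eval ((n : ℝ) + 1))) =O[atTop]
      (e (-1)) := by
  refine Submodule.span_induction (p := fun w _ => ∃ P Q : Polynomial ℝ,
    (fun n : ℕ => w n - (P.eval ((n : ℝ) + 1) * ll n + Q.eval ((n : ℝ) + 1))) =O[atTop]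
      (e (-1))) ?_ ?_ ?_ ?_ hw
  · rintro _ (⟨i, rfl⟩ | ⟨i, rfl⟩)
    · rcases le_or_gt 0 i with hi | hi
      · obtain ⟨k, rfl⟩ := Int.eq_ofNat_of_zero_le hi
        refine ⟨0, Polynomial.X ^ k, ?_⟩
        refine (isBigO_zero (E' := ℝ) (e (-1)) atTop).congr_left fun n => ?_
        simp [e]
      · refine ⟨0, 0, ?_⟩
        refine (e_bigO (show i ≤ -1 by omega)).congr_left fun n => ?_
        simp
    · refine ⟨Polynomial.X ^ i, 0, ?_⟩
      refine (isBigO_zero (E' := ℝ) (e (-1)) atTop).congr_left fun n => ?_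
      simp [e]
  · exact ⟨0, 0, by simpa using (isBigO_zero (E' := ℝ) (e (-1)) atTop)⟩
  · rintro x y _ _ ⟨P, Q, h⟩ ⟨P', Q', h'⟩
    refine ⟨P + P', Q + Q', (h.add h').congr_left fun n => ?_⟩
    simp only [Pi.add_apply, Polynomial.eval_add]
    ring
  · rintro c x _ ⟨P, Q, h⟩
    refine ⟨Polynomial.C c * P, Polynomial.C c * Q, (h.const_mul_left c).congr_left fun n => ?_⟩
    simp only [Pi.smul_apply, smul_eq_mul, Polynomial.eval_mul, Polynomial.eval_C]
    ring

lemma poly_lead {P : Polynomial ℝ} : Tendsto (fun x : ℝ => P.eval x / x ^ P.natDegree) atTop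
    (𝓝 P.leadingCoeff) := by
  by_cases hP : P = 0
  · subst hP; simp
  have h := P.isEquivalent_atTop_lead
  have h2 : (fun x : ℝ => P.eval x / x ^ P.natDegree) ~[atTop]
      (fun x : ℝ => P.leadingCoeff * x ^ P.natDegree / x ^ P.natDegree) :=
    h.div IsEquivalent.refl
  have h3 : (fun x : ℝ => P.leadingCoeff * x ^ P.natDegree / x ^ P.natDegree) =ᶠ[atTop]
      fun _ => P.leadingCoeff := by
    filter_upwards [eventually_gt_atTop 0] with x hx
    field_simp
  exact (h2.congr_right h3).tendsto_const

/-- A combination of a polynomial times the logarithm and a polynomial is zero or does not tend to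
zero along any sequence. -/
lemma dichotomy (P Q : Polynomial ℝ) (h : ¬ (P = 0 ∧ Q = 0)) :
    ∃ c > 0, ∀ᶠ x : ℝ in atTop, c ≤ |P.eval x * log x + Q.eval x| := by
  by_cases hcase : P ≠ 0 ∧ Q.natDegree ≤ P.natDegree
  · obtain ⟨hP, hdeg⟩ := hcase
    set d := P.natDegree with hd
    have hc0 : P.leadingCoeff ≠ 0 := Polynomial.leadingCoeff_ne_zero.mpr hP
    have h1 : Tendsto (fun x : ℝ => (P.eval x * log x + Q.eval x) / (x ^ d * log x)) atTop
        (𝓝 P.leadingCoeff) := by
      have a1 : Tendsto (fun x : ℝ => P.eval x / x ^ d) atTop (𝓝 P.leadingCoeff) := poly_lead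
      have a2 : Tendsto (fun x : ℝ => (Q.eval x / x ^ d) * (log x)⁻¹) atTop (𝓝 0) := by
        have a3 : (fun x : ℝ => Q.eval x / x ^ d) =O[atTop] (fun _ => (1 : ℝ)) := by
          have b1 : (fun x : ℝ => Q.eval x) =O[atTop] (fun x : ℝ => x ^ d) := by
            have b2 := Polynomial.isBigO_atTop_of_degree_le Q (Polynomial.X ^ d : Polynomial ℝ) (by
              rw [Polynomial.degree_X_pow]
              exact (Polynomial.degree_le_natDegree).trans (by exact_mod_cast hdeg))
            refine b2.congr_right fun x => ?_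
            simp
          have b3 := b1.mul (isBigO_refl (fun x : ℝ => (x ^ d)⁻¹) atTop)
          refine b3.trans (IsBigO.of_bound 1 ?_) |>.congr_left fun x => by rw [div_eq_mul_inv]
          filter_upwards [eventually_gt_atTop 0] with x hx
          rw [mul_inv_cancel₀ (by positivity)]
          simp
        have a4 : Tendsto (fun x : ℝ => (log x)⁻¹) atTop (𝓝 0) :=
          tendsto_inv_atTop_zero.comp tendsto_log_atTop
        have a5 := a3.mul_isLittleO ((isLittleO_one_iff ℝ).mpr a4)
        simp only [mul_one] at a5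
        exact (isLittleO_one_iff ℝ).mp a5
      have a6 := a1.add a2
      rw [add_zero] at a6
      refine a6.congr' ?_
      filter_upwards [eventually_gt_atTop 1] with x hx
      have hx0 : 0 < x := by linarith
      have hl : 0 < log x := log_pos hx
      field_simp
    have h2 : Tendsto (fun x : ℝ => |(P.eval x * log x + Q.eval x) / (x ^ d * log x)|) atTop
        (𝓝 |P.leadingCoeff|) := h1.abs
    have h3 : |P.leadingCoeff| / 2 < |P.leadingCoeff| := by
      have : 0 < |P.leadingCoeff| := abs_pos.mpr hc0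
      linarith
    refine ⟨|P.leadingCoeff| / 2, by have := abs_pos.mpr hc0; positivity, ?_⟩
    filter_upwards [h2.eventually_const_lt h3, eventually_ge_atTop (exp 1)] with x hx hx1
    have hx0 : 1 ≤ x := (one_le_exp (by norm_num)).trans hx1
    have hl : 1 ≤ log x := by
      rw [Real.le_log_iff_exp_le (by linarith)]
      exact hx1
    have hxd : 1 ≤ x ^ d := one_le_pow₀ hx0
    have hpp : 0 < x ^ d * log x := by positivity
    rw [abs_div, abs_of_pos hpp, lt_div_iff₀ hpp] at hx
    have h4 : 1 ≤ x ^ d * log x := by nlinarith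
    have h5 : 0 ≤ |P.leadingCoeff| / 2 := by positivity
    nlinarith
  · set q := Q.natDegree with hq
    have hQ : Q ≠ 0 := by
      rintro rfl
      push Not at hcase
      by_cases hP : P = 0
      · exact h ⟨hP, rfl⟩
      · have := hcase hP
        simp [hq] at this
    have hc0 : Q.leadingCoeff ≠ 0 := Polynomial.leadingCoeff_ne_zero.mpr hQ
    have h1 : Tendsto (fun x : ℝ => (P.eval x * log x + Q.eval x) / x ^ q) atTop
        (𝓝 Q.leadingCoeff) := by
      have a1 : Tendsto (fun x : ℝ => Q.eval x / x ^ q) atTop (𝓝 Q.leadingCoeff) := poly_lead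
      have a2 : Tendsto (fun x : ℝ => P.eval x * log x / x ^ q) atTop (𝓝 0) := by
        by_cases hP : P = 0
        · subst hP; simp
        · push Not at hcase
          have hdeg := hcase hP
          have b1 : (fun x : ℝ => P.eval x) =O[atTop] (fun x : ℝ => x ^ P.natDegree) := by
            have b2 := Polynomial.isBigO_atTop_of_degree_le P
              (Polynomial.X ^ P.natDegree : Polynomial ℝ) (by
              rw [Polynomial.degree_X_pow]
              exact Polynomial.degree_le_natDegree)
            refine b2.congr_right fun x => ?_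
            simp
          have b3 : (fun x : ℝ => log x) =o[atTop] (fun x : ℝ => x) := isLittleO_log_id_atTop
          have b4 := b1.mul_isLittleO b3
          have b5 : (fun x : ℝ => x ^ P.natDegree * x) =O[atTop] (fun x : ℝ => x ^ q) := by
            refine IsBigO.of_bound 1 ?_
            filter_upwards [eventually_ge_atTop 1] with x hx
            rw [norm_of_nonneg (by positivity), norm_of_nonneg (by positivity), one_mul,
              ← pow_succ]
            exact pow_le_pow_right₀ hx (by omega)
          exact (b4.trans_isBigO b5).tendsto_div_nhds_zero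
      have a6 := a2.add a1
      rw [zero_add] at a6
      refine a6.congr fun x => ?_
      rw [← add_div]
    have h2 : Tendsto (fun x : ℝ => |(P.eval x * log x + Q.eval x) / x ^ q|) atTop
        (𝓝 |Q.leadingCoeff|) := h1.abs
    have h3 : |Q.leadingCoeff| / 2 < |Q.leadingCoeff| := by
      have : 0 < |Q.leadingCoeff| := abs_pos.mpr hc0
      linarith
    refine ⟨|Q.leadingCoeff| / 2, by have := abs_pos.mpr hc0; positivity, ?_⟩
    filter_upwards [h2.eventually_const_lt h3, eventually_ge_atTop 1] with x hx hx1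
    have hxd : 1 ≤ x ^ q := one_le_pow₀ hx1
    have hpp : 0 < x ^ q := by positivity
    rw [abs_div, abs_of_pos hpp, lt_div_iff₀ hpp] at hx
    have h5 : 0 ≤ |Q.leadingCoeff| / 2 := by positivity
    nlinarith

/-- A sequence with an expansion that is small along an infinite set is `O(1/n)`. -/
lemma HasW.small {g : ℕ → ℝ} (hg : HasW g) {u : ℕ → ℝ} (hu : Tendsto u atTop (𝓝 0))
    (hf : ∃ᶠ n in atTop, g n = u n) : g =O[atTop] (e (-1)) := by
  obtain ⟨w, hw, h⟩ := hg 1
  obtain ⟨P, Q, hPQ⟩ := WL_form hw
  have h1 : (fun n : ℕ => g n - (P.eval ((n : ℝ) + 1) * ll n + Q.eval ((n : ℝ) + 1)))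
      =O[atTop] (e (-1)) := by
    have h' : (fun n => g n - w n) =O[atTop] (e (-1)) := by simpa using h
    exact (h'.add hPQ).congr_left fun n => by ring
  by_cases h0 : P = 0 ∧ Q = 0
  · refine h1.congr_left fun n => ?_
    rw [h0.1, h0.2]
    simp
  · exfalso
    obtain ⟨c, hc, hev⟩ := dichotomy P Q h0
    have hT : Tendsto (fun n : ℕ => (n : ℝ) + 1) atTop atTop :=
      tendsto_atTop_add_const_right _ _ tendsto_natCast_atTop_atTop
    have hev2 := hT.eventually hev
    have h2 : Tendsto (fun n : ℕ => g n - (P.eval ((n : ℝ) + 1) * ll n + Q.eval ((n : ℝ) + 1)))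
      atTop (𝓝 0) := h1.trans_tendsto e_neg_one_tendsto
    have h3 : ∀ᶠ n : ℕ in atTop,
        |g n - (P.eval ((n : ℝ) + 1) * ll n + Q.eval ((n : ℝ) + 1))| < c / 2 := by
      have := h2.abs
      rw [abs_zero] at this
      exact this.eventually_lt_const (by positivity)
    have h4 : ∀ᶠ n : ℕ in atTop, |u n| < c / 2 := by
      have := hu.abs
      rw [abs_zero] at this
      exact this.eventually_lt_const (by positivity)
    obtain ⟨n, h5, h6, h7, h8⟩ := (hf.and_eventually (hev2.and (h3.and h4))).exists
    rw [h5] at h7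
    have h9 : |P.eval ((n : ℝ) + 1) * ll n + Q.eval ((n : ℝ) + 1)| < c := by
      calc |P.eval ((n : ℝ) + 1) * ll n + Q.eval ((n : ℝ) + 1)| =
            |u n - (u n - (P.eval ((n : ℝ) + 1) * ll n + Q.eval ((n : ℝ) + 1)))| := by
            congr 1; ring
        _ ≤ |u n| + |u n - (P.eval ((n : ℝ) + 1) * ll n + Q.eval ((n : ℝ) + 1))| := abs_sub _ _
        _ < _ := by linarith
    unfold ll at h9
    linarith

end Pool.Agent.Helper44.NCF
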