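import Mathlib
import Pool.Agent.Helper44.Ball3.Rate

set_option autoImplicit false
set_option maxHeartbeats 4000000
set_option synthInstance.maxHeartbeats 400000

open MeasureTheory Set Real
open scoped ENNReal InnerProductSpace

namespace Pool.Agent.Helper44.Ball3

lemma mu_iso2 (k n : ℕ) : Isotropic (mu k) (fun y : ℝ × E3 => vv n y.2) := by
  intro u
  have h1 := isotropic_vv n u
  rw [← h1]
  have hmm : Measurable fun w : E3 => ENNReal.ofReal (‖⟪u, vv n w⟫_ℂ‖ ^ 2) :=
    ENNReal.measurable_ofReal.comp ((measurable_const.inner (measurable_vv n)).norm.pow_const 2)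
  exact mu_int_x k hmm

lemma mu_ae_good2 (k n : ℕ) : ∀ᵐ y ∂(Measure.pi fun _ : Fin n => mu k),
    ∀ i, (y i).1 ∈ Ioo (0 : ℝ) 1 ∧ (y i).2 ∈ Good :=
  ae_pi (ν := fun _ : Fin n => mu k) (p := fun y => y.1 ∈ Ioo (0 : ℝ) 1 ∧ y.2 ∈ Good)
    (fun _ => mu_ae k)

lemma mu_ae_dist2 (k n : ℕ) : ∀ᵐ y ∂(Measure.pi fun _ : Fin n => mu k),
    ∀ e ∈ edges n, (y e.1).2 ≠ (y e.2).2 := by
  rw [Filter.eventually_all_finset]
  intro e he
  have hne : e.1 ≠ e.2 := (mem_edges.mp he).ne
  have hms : MeasurableSet {p : (ℝ × E3) × (ℝ × E3) | p.1.2 = p.2.2} :=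
    measurableSet_eq_fun (measurable_snd.comp measurable_fst) (measurable_snd.comp measurable_snd)
  have := pair_int (fun _ : Fin n => mu k) hne
    (g := fun s t => {p : (ℝ × E3) × (ℝ × E3) | p.1.2 = p.2.2}.indicator
      (fun _ => (1 : ℝ≥0∞)) (s, t)) (measurable_const.indicator hms)
  have h0 : ∫⁻ s, ∫⁻ t, {p : (ℝ × E3) × (ℝ × E3) | p.1.2 = p.2.2}.indicator
      (fun _ => (1 : ℝ≥0∞)) (s, t) ∂(mu k) ∂(mu k) = 0 := by
    rw [lintegral_congr_ae (g := fun _ => 0), lintegral_zero]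
    filter_upwards [mu_ae k] with s hs
    rw [lintegral_congr_ae (g := fun _ => 0), lintegral_zero]
    have h1 : ∀ᵐ t ∂(mu k), t.2 ≠ s.2 := by
      unfold mu
      exact Measure.quasiMeasurePreserving_snd.ae (sig_singleton hs.2.1)
    filter_upwards [h1] with t ht
    rw [indicator_of_notMem]
    exact fun h => ht h.symm
  rw [h0, lintegral_eq_zero_iff] at this
  · filter_upwards [this] with x hx hxx
    simp [hxx] at hx
  · have hm0 : Measurable fun x : Fin n → ℝ × E3 => (x e.1, x e.2) :=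
      (measurable_pi_apply _).prodMk (measurable_pi_apply _)
    exact (measurable_const.indicator hms).comp hm0

/-- The pair constant for a changed radial law. -/
noncomputable def ck (n k : ℕ) : ℝ :=
  (n : ℝ) ^ 2 * (harmonic (n - 1) : ℝ) / (2 * (((k : ℝ) + 1) * ((k : ℝ) + 3)))

lemma pair_c2 (n k : ℕ) : ∫⁻ y, ∫⁻ z, D2 (fun y : ℝ × E3 => vv n y.2) y z *
    ENNReal.ofReal (ff y z) ∂(mu k) ∂(mu k) = ENNReal.ofReal (ck n k) := by
  have hD2 : Measurable fun p : (ℝ × E3) × (ℝ × E3) =>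
      D2 (fun y : ℝ × E3 => vv n y.2) p.1 p.2 :=
    measurable_D2 ((measurable_vv n).comp measurable_snd)
  have hF : Measurable fun p : (ℝ × E3) × (ℝ × E3) => ENNReal.ofReal (ff p.1 p.2) :=
    measurable_ff.ennreal_ofReal
  have hH : (0 : ℝ) ≤ (harmonic (n - 1) : ℝ) := harm_nonneg _
  have inner : ∀ᵐ y ∂(mu k), ∫⁻ z, D2 (fun y : ℝ × E3 => vv n y.2) y z *
      ENNReal.ofReal (ff y z) ∂(mu k) = (∫⁻ s, ENNReal.ofReal (bb y.1 s) ∂(rho k)) *
        ENNReal.ofReal ((n : ℝ) ^ 2 / 4 * (harmonic (n - 1) : ℝ)) := by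
    filter_upwards [mu_ae k] with y hy
    have hm0 := (hD2.mul hF).comp (measurable_prodMk_left (x := y))
    have hm : Measurable fun z : ℝ × E3 => D2 (fun y : ℝ × E3 => vv n y.2) y z *
      ENNReal.ofReal (ff y z) := hm0
    unfold mu
    rw [lintegral_prod _ hm.aemeasurable, ← lintegral_mul_const]
    · refine lintegral_congr_ae ?_
      filter_upwards [rho_ae k] with s hs
      have hb : 0 ≤ bb y.1 s := bb_nonneg hy.1.1 hs.1
      have := ang_int (n := n) hy.2 hb
      have e : ∀ w', D2 (fun y : ℝ × E3 => vv n y.2) y (s, w') = D2 (vv n) y.2 w' := fun _ => rfl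
      simp only [e, ff]
      rw [this, ← ENNReal.ofReal_mul (by positivity), ← ENNReal.ofReal_mul hb]
      congr 1
      ring
    · have : Measurable fun s => bb y.1 s := by unfold bb; fun_prop
      exact this.ennreal_ofReal
  rw [lintegral_congr_ae inner]
  have hmb : Measurable fun r => ∫⁻ s, ENNReal.ofReal (bb r s) ∂(rho k) := by
    have : Measurable fun p : ℝ × ℝ => ENNReal.ofReal (bb p.1 p.2) := measurable_bb.ennreal_ofReal
    exact this.lintegral_prod_right'
  have hm2 : Measurable fun y : ℝ × E3 => (∫⁻ s, ENNReal.ofReal (bb y.1 s) ∂(rho k)) :=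
    hmb.comp measurable_fst
  rw [lintegral_mul_const _ hm2]
  unfold mu
  rw [lintegral_prod _ hm2.aemeasurable]
  simp only [lintegral_const, measure_univ, mul_one]
  rw [E_bb, ← ENNReal.ofReal_mul (by positivity)]
  congr 1
  unfold ck
  field_simp
  ring

lemma err_int2 {n k : ℕ} (hn : 1 ≤ n) (hk : 1 ≤ k) (hnk : n ≤ 2 * k) :
    ∫⁻ y, ∫⁻ z, ENNReal.ofReal ((n : ℝ) ^ 3 / 4 * (bb y.1 z.1 * ph y z)) ∂(mu k) ∂(mu k) ≤
      ENNReal.ofReal ((256 * log n + 2) / n) := by
  have hn0 : (1 : ℝ) ≤ n := by exact_mod_cast hn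
  have hk0 : (1 : ℝ) ≤ k := by exact_mod_cast hk
  have hnk0 : (n : ℝ) ≤ 2 * k := by exact_mod_cast hnk
  have hL0 : 0 ≤ log (n : ℝ) := log_nonneg hn0
  have hpp := measurable_pp
  -- pointwise bound after angular integration
  have inner : ∀ᵐ y ∂(mu k),
      ∫⁻ z, ENNReal.ofReal ((n : ℝ) ^ 3 / 4 * (bb y.1 z.1 * ph y z)) ∂(mu k) ≤
      ∫⁻ s, (ENNReal.ofReal (4 * (n : ℝ) ^ 3 * log n) * (ENNReal.ofReal (pp y.1 ^ 2) +
        ENNReal.ofReal (pp s ^ 2)) + ENNReal.ofReal (n / 4) * ENNReal.ofReal (bb y.1 s))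
          ∂(rho k) := by
    filter_upwards [mu_ae k] with y hy
    have hm : Measurable fun z : ℝ × E3 =>
        ENNReal.ofReal ((n : ℝ) ^ 3 / 4 * (bb y.1 z.1 * ph y z)) := by
      have h1 := measurable_ph_left y
      have h2 : Measurable fun z : ℝ × E3 => bb y.1 z.1 := by unfold bb; fun_prop
      exact ((h2.mul h1).const_mul _).ennreal_ofReal
    have hswap : ∫⁻ z, ENNReal.ofReal ((n : ℝ) ^ 3 / 4 * (bb y.1 z.1 * ph y z)) ∂(mu k) =
        ∫⁻ s, ∫⁻ w', ENNReal.ofReal ((n : ℝ) ^ 3 / 4 * (bb y.1 s * ph y (s, w'))) ∂sig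
          ∂(rho k) := by
      unfold mu
      rw [lintegral_prod _ hm.aemeasurable]
    rw [hswap]
    refine lintegral_mono_ae ?_
    filter_upwards [rho_ae k] with s hs
    have hb : 0 ≤ bb y.1 s := bb_nonneg hy.1.1 hs.1
    have e1 : ∀ w', ENNReal.ofReal ((n : ℝ) ^ 3 / 4 * (bb y.1 s * ph y (s, w'))) =
        ENNReal.ofReal ((n : ℝ) ^ 3 / 4 * bb y.1 s) *
          ENNReal.ofReal (bb y.1 s / (‖y.2 - w'‖ ^ 2 + bb y.1 s)) := by
      intro w'
      rw [← ENNReal.ofReal_mul (by positivity), ← mul_assoc]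
      rfl
    simp only [e1]
    rw [lintegral_const_mul _ (by fun_prop)]
    calc _ ≤ ENNReal.ofReal ((n : ℝ) ^ 3 / 4 * bb y.1 s) *
          ENNReal.ofReal (bb y.1 s / 2 * log n + 1 / (n : ℝ) ^ 2) := by
          gcongr
          exact phi_int hn hy.2.1 hb
      _ = ENNReal.ofReal ((n : ℝ) ^ 3 / 8 * log n * bb y.1 s ^ 2 + n / 4 * bb y.1 s) := by
          rw [← ENNReal.ofReal_mul (by positivity)]
          congr 1
          field_simp
          ring
      _ ≤ ENNReal.ofReal (4 * (n : ℝ) ^ 3 * log n * (pp y.1 ^ 2 + pp s ^ 2) +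
            n / 4 * bb y.1 s) := by
          refine ENNReal.ofReal_le_ofReal ?_
          have h1 := bb_le hy.1 hs
          have p1 := pp_pos hy.1
          have p2 := pp_pos hs
          have h2 : bb y.1 s ^ 2 ≤ 32 * (pp y.1 ^ 2 + pp s ^ 2) := by
            calc bb y.1 s ^ 2 ≤ (4 * (pp y.1 + pp s)) ^ 2 := by gcongr
              _ ≤ _ := by nlinarith [sq_nonneg (pp y.1 - pp s)]
          have h3 : (n : ℝ) ^ 3 / 8 * log n * bb y.1 s ^ 2 ≤
              (n : ℝ) ^ 3 / 8 * log n * (32 * (pp y.1 ^ 2 + pp s ^ 2)) := by gcongr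
          linarith
      _ = _ := by
          rw [← ENNReal.ofReal_add (by positivity) (by positivity),
            ← ENNReal.ofReal_mul (by positivity), ← ENNReal.ofReal_mul (by positivity),
            ← ENNReal.ofReal_add (by positivity) (by positivity)]
  refine (lintegral_mono_ae inner).trans ?_
  -- radial integration
  have hmbb : ∀ r : ℝ, Measurable fun s => ENNReal.ofReal (bb r s) := fun r => by
    unfold bb; fun_prop
  have hmE : Measurable fun r => ∫⁻ s, ENNReal.ofReal (bb r s) ∂(rho k) := by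
    have : Measurable fun p : ℝ × ℝ => ENNReal.ofReal (bb p.1 p.2) := measurable_bb.ennreal_ofReal
    exact this.lintegral_prod_right'
  have e2 : ∀ r : ℝ, ∫⁻ s, (ENNReal.ofReal (4 * (n : ℝ) ^ 3 * log n) * (ENNReal.ofReal (pp r ^ 2) +
        ENNReal.ofReal (pp s ^ 2)) + ENNReal.ofReal (n / 4) * ENNReal.ofReal (bb r s)) ∂(rho k) =
      ENNReal.ofReal (4 * (n : ℝ) ^ 3 * log n) * (ENNReal.ofReal (pp r ^ 2) +
        ∫⁻ s, ENNReal.ofReal (pp s ^ 2) ∂(rho k)) +
        ENNReal.ofReal (n / 4) * ∫⁻ s, ENNReal.ofReal (bb r s) ∂(rho k) := by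
    intro r
    rw [lintegral_add_right _ ((hmbb r).const_mul _), lintegral_const_mul _ (by fun_prop),
      lintegral_const_mul _ (hmbb r), lintegral_add_left measurable_const, lintegral_const,
      measure_univ, mul_one]
  simp only [e2]
  have e3 : ∫⁻ y : ℝ × E3, (ENNReal.ofReal (4 * (n : ℝ) ^ 3 * log n) *
      (ENNReal.ofReal (pp y.1 ^ 2) + ∫⁻ s, ENNReal.ofReal (pp s ^ 2) ∂(rho k)) +
        ENNReal.ofReal (n / 4) * ∫⁻ s, ENNReal.ofReal (bb y.1 s) ∂(rho k)) ∂(mu k) =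
      ∫⁻ r, (ENNReal.ofReal (4 * (n : ℝ) ^ 3 * log n) *
      (ENNReal.ofReal (pp r ^ 2) + ∫⁻ s, ENNReal.ofReal (pp s ^ 2) ∂(rho k)) +
        ENNReal.ofReal (n / 4) * ∫⁻ s, ENNReal.ofReal (bb r s) ∂(rho k)) ∂(rho k) := by
    unfold mu
    rw [lintegral_prod]
    · simp only [lintegral_const, measure_univ, mul_one]
    · exact ((((hpp.pow_const 2).ennreal_ofReal.add_const _).const_mul _).add
        (hmE.const_mul _) |>.comp measurable_fst).aemeasurable
  rw [e3, lintegral_add_right _ (hmE.const_mul _), lintegral_const_mul _ (by fun_prop),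
    lintegral_const_mul _ hmE, lintegral_add_right _ measurable_const, lintegral_const,
    measure_univ, mul_one, E_bb]
  calc _ ≤ ENNReal.ofReal (4 * (n : ℝ) ^ 3 * log n) * (ENNReal.ofReal (2 / (k : ℝ) ^ 4) +
        ENNReal.ofReal (2 / (k : ℝ) ^ 4)) + ENNReal.ofReal (n / 4) *
          ENNReal.ofReal (2 / (((k : ℝ) + 1) * ((k : ℝ) + 3))) := by
        gcongr <;> exact E_pp_sq k hk
    _ = ENNReal.ofReal (4 * (n : ℝ) ^ 3 * log n * (2 / (k : ℝ) ^ 4 + 2 / (k : ℝ) ^ 4) +
          n / 4 * (2 / (((k : ℝ) + 1) * ((k : ℝ) + 3)))) := by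
        rw [← ENNReal.ofReal_add (by positivity) (by positivity),
            ← ENNReal.ofReal_mul (by positivity), ← ENNReal.ofReal_mul (by positivity),
            ← ENNReal.ofReal_add (by positivity) (by positivity)]
    _ ≤ _ := by
        refine ENNReal.ofReal_le_ofReal ?_
        have h1 : 4 * (n : ℝ) ^ 3 * log n * (2 / (k : ℝ) ^ 4 + 2 / (k : ℝ) ^ 4) ≤
            256 * log n / n := by
          have e1 : 4 * (n : ℝ) ^ 3 * log n * (2 / (k : ℝ) ^ 4 + 2 / (k : ℝ) ^ 4) =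
            16 * (n : ℝ) ^ 3 * log n / (k : ℝ) ^ 4 := by field_simp; ring
          rw [e1, div_le_div_iff₀ (by positivity) (by positivity)]
          have h4 : (n : ℝ) ^ 4 ≤ (2 * k) ^ 4 := by gcongr
          calc 16 * (n : ℝ) ^ 3 * log n * n = 16 * log n * (n : ℝ) ^ 4 := by ring
            _ ≤ 16 * log n * (2 * k) ^ 4 := by gcongr
            _ = _ := by ring
        have h2 : (n : ℝ) / 4 * (2 / (((k : ℝ) + 1) * ((k : ℝ) + 3))) ≤ 2 / n := by
          rw [div_mul_div_comm, div_le_div_iff₀ (by positivity) (by positivity)]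
          nlinarith
        rw [add_div]
        linarith

lemma pair_lower2 {n k : ℕ} (hn : 1 ≤ n) (hk : 1 ≤ k) (hnk : n ≤ 2 * k) :
    ENNReal.ofReal (ck n k) ≤
    ∫⁻ y, ∫⁻ z, D2 (fun y : ℝ × E3 => vv n y.2) y z * ENNReal.ofReal (ph y z) ∂(mu k) ∂(mu k) +
      ENNReal.ofReal ((256 * log n + 2) / n) := by
  have hD2 : Measurable fun p : (ℝ × E3) × (ℝ × E3) =>
      D2 (fun y : ℝ × E3 => vv n y.2) p.1 p.2 :=
    measurable_D2 ((measurable_vv n).comp measurable_snd)
  have hP : Measurable fun p : (ℝ × E3) × (ℝ × E3) => ENNReal.ofReal (ph p.1 p.2) :=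
    measurable_ph.ennreal_ofReal
  have hDP := hD2.mul hP
  have hDP2 := hDP.lintegral_prod_right' (ν := mu k)
  rw [← pair_c2]
  calc _ ≤ ∫⁻ y, (∫⁻ z, D2 (fun y : ℝ × E3 => vv n y.2) y z * ENNReal.ofReal (ph y z) ∂(mu k) +
        ∫⁻ z, ENNReal.ofReal ((n : ℝ) ^ 3 / 4 * (bb y.1 z.1 * ph y z)) ∂(mu k)) ∂(mu k) := by
        refine lintegral_mono_ae ?_
        filter_upwards [mu_ae k] with y hy
        have hm1 := hDP.comp (measurable_prodMk_left (x := y))
        have hm2 : Measurable fun z : ℝ × E3 =>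
            D2 (fun y : ℝ × E3 => vv n y.2) y z * ENNReal.ofReal (ph y z) := hm1
        rw [← lintegral_add_left hm2]
        refine lintegral_mono_ae ?_
        filter_upwards [mu_ae k] with z hz
        exact D2_lower hn hy.2 hz.2 (bb_nonneg hy.1.1 hz.1.1)
    _ = _ := by
        have hDP3 : Measurable fun y : ℝ × E3 => ∫⁻ z, D2 (fun y : ℝ × E3 => vv n y.2) y z *
          ENNReal.ofReal (ph y z) ∂(mu k) := hDP2
        rw [lintegral_add_left hDP3]
    _ ≤ _ := by
        gcongr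
        exact err_int2 hn hk hnk

/-- Mean of `1/r - 1`. -/
lemma E_inv (k : ℕ) : ∫⁻ r, ENNReal.ofReal (1 / r - 1) ∂(rho k) =
    ENNReal.ofReal (1 / ((k : ℝ) + 1)) := by
  rw [lintegral_rho k (by fun_prop)]
  have h1 : ∀ r ∈ Ioo (0 : ℝ) 1, ENNReal.ofReal (((k : ℝ) + 2) * r ^ (k + 1)) *
      ENNReal.ofReal (1 / r - 1) =
        ENNReal.ofReal (((k : ℝ) + 2) * (r ^ k * (1 - r) ^ 1)) := by
    intro r hr
    have h0 := hr.1
    rw [← ENNReal.ofReal_mul (by positivity)]
    congr 1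
    rw [pow_succ]
    field_simp
  rw [setLIntegral_congr_fun measurableSet_Ioo h1, beta_scaled]
  congr 1
  rw [show k + 1 + 1 = (k + 1) + 1 by ring, Nat.factorial_succ (k + 1), Nat.factorial_succ k]
  have h3 : (k.factorial : ℝ) ≠ 0 := by positivity
  push_cast
  field_simp
  norm_num [Nat.factorial]
  ring

/-- The radial laws are mutually absolutely continuous with explicit density. -/
lemma mu_change (k t : ℕ) : mu (k + t) = (mu k).withDensity
    (fun y => ENNReal.ofReal ((((k + t : ℕ) : ℝ) + 2) / ((k : ℝ) + 2)) *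
      ENNReal.ofReal (y.1 ^ t)) := by
  have h1 : rho (k + t) = (rho k).withDensity (fun r : ℝ =>
      ENNReal.ofReal ((((k + t : ℕ) : ℝ) + 2) / ((k : ℝ) + 2)) * ENNReal.ofReal (r ^ t)) := by
    unfold rho
    rw [← withDensity_mul _ (by fun_prop) (by fun_prop)]
    refine withDensity_congr_ae ?_
    filter_upwards [ae_restrict_mem measurableSet_Ioo] with r hr
    have h0 := hr.1
    simp only [Pi.mul_apply]
    rw [← ENNReal.ofReal_mul (by positivity), ← ENNReal.ofReal_mul (by positivity)]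
    congr 1
    have h2 : (k : ℝ) + 2 ≠ 0 := by positivity
    field_simp
    ring
  unfold mu
  have hfin : IsProbabilityMeasure ((rho k).withDensity (fun r : ℝ =>
      ENNReal.ofReal ((((k + t : ℕ) : ℝ) + 2) / ((k : ℝ) + 2)) * ENNReal.ofReal (r ^ t))) := by
    rw [← h1]; infer_instance
  rw [h1, prod_withDensity_left (by fun_prop)]

end Pool.Agent.Helper44.Ball3
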