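import Mathlib
import Pool.Agent.Helper44.NCF.Low2

set_option autoImplicit false
set_option maxHeartbeats 4000000
set_option synthInstance.maxHeartbeats 400000

open MeasureTheory Set Real
open scoped ENNReal InnerProductSpace

namespace Pool.Agent.Helper44.Ball3

/-- Jensen for the exponential of a difference of nonnegative functions. -/
lemma jensen_diff {Z : Type*} [MeasurableSpace Z] {P : Measure Z} [IsProbabilityMeasure P]
    {G T : Z → ℝ} (hG : Measurable G) (hT : Measurable T) {M N : ℝ} (hN : 0 ≤ N) (hM : 0 ≤ M)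
    (h : ENNReal.ofReal M ≤ ∫⁻ z, ENNReal.ofReal (G z) ∂P)
    (h' : ∫⁻ z, ENNReal.ofReal (T z) ∂P ≤ ENNReal.ofReal N)
    (hG0 : ∀ᵐ z ∂P, 0 ≤ G z) (hT0 : ∀ᵐ z ∂P, 0 ≤ T z) :
    ENNReal.ofReal (exp (M - N)) ≤ ∫⁻ z, ENNReal.ofReal (exp (G z - T z)) ∂P := by
  set a := exp (M - N) with ha
  have ha0 : 0 ≤ a := (exp_pos _).le
  have h1 : ∀ᵐ z ∂P, ENNReal.ofReal (a + a * N) + ENNReal.ofReal a * ENNReal.ofReal (G z) ≤
      ENNReal.ofReal (exp (G z - T z)) + (ENNReal.ofReal (a * M) +
        ENNReal.ofReal a * ENNReal.ofReal (T z)) := by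
    filter_upwards [hG0, hT0] with z hz hz'
    rw [← ENNReal.ofReal_mul ha0, ← ENNReal.ofReal_mul ha0,
      ← ENNReal.ofReal_add (by positivity) (by positivity),
      ← ENNReal.ofReal_add (by positivity) (by positivity),
      ← ENNReal.ofReal_add (exp_pos _).le (by positivity)]
    refine ENNReal.ofReal_le_ofReal ?_
    have h2 : exp (G z - T z) = a * exp (G z - T z - (M - N)) := by
      rw [ha, ← exp_add]; congr 1; ring
    have h3 := add_one_le_exp (G z - T z - (M - N))
    rw [h2]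
    nlinarith [mul_le_mul_of_nonneg_left h3 ha0]
  have h4 := lintegral_mono_ae h1
  rw [lintegral_add_left (by fun_prop), lintegral_const, measure_univ, mul_one,
    lintegral_const_mul _ (by fun_prop), lintegral_add_right _ (by fun_prop),
    lintegral_add_left (by fun_prop), lintegral_const,
    measure_univ, mul_one, lintegral_const_mul _ (by fun_prop)] at h4
  have h5 : ENNReal.ofReal (a + a * N) + ENNReal.ofReal a * ENNReal.ofReal M ≤
      ∫⁻ z, ENNReal.ofReal (exp (G z - T z)) ∂P + (ENNReal.ofReal (a * M) +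
        ENNReal.ofReal a * ENNReal.ofReal N) :=
    calc _ ≤ ENNReal.ofReal (a + a * N) + ENNReal.ofReal a * ∫⁻ z, ENNReal.ofReal (G z) ∂P := by
          gcongr
      _ ≤ _ := h4
      _ ≤ _ := by gcongr
  rw [← ENNReal.ofReal_mul ha0, ← ENNReal.ofReal_mul ha0,
    ← ENNReal.ofReal_add (by positivity) (by positivity),
    ← ENNReal.ofReal_add (by positivity) (by positivity)] at h5
  have h6 : a + a * N + a * M = a + (a * M + a * N) := by ring
  rw [h6, ENNReal.ofReal_add ha0 (by positivity)] at h5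
  exact (ENNReal.add_le_add_iff_right ENNReal.ofReal_ne_top).mp h5

/-- Lower bound with a changed radial law. -/
lemma lower2 {k t : ℕ} (hk : 1 ≤ k) (hkt : k + t ≤ 2 * k) (hn2 : 2 ≤ k + t)
    (h0 : 0 ≤ (ck (k + t) k - (256 * log ((k + t : ℕ) : ℝ) + 2) / ((k + t : ℕ) : ℝ)) / 2) :
    ENNReal.ofReal (((k + t).factorial : ℝ) *
      ((((k + t : ℕ) : ℝ) + 2) / ((k : ℝ) + 2)) ^ (k + t) *
      exp ((ck (k + t) k - (256 * log ((k + t : ℕ) : ℝ) + 2) / ((k + t : ℕ) : ℝ)) / 2 -
        (t : ℝ) * ((k + t : ℕ) : ℝ) / ((k : ℝ) + 1))) ≤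
      Kc (k + t) * ∫⁻ y, PA (k + t) y ∂(Measure.pi fun _ : Fin (k + t) => mu (k + t)) := by
  set n := k + t with hn
  have hn1 : 1 ≤ n := by omega
  have hn0 : (0 : ℝ) < n := by exact_mod_cast (show 0 < n by omega)
  have hv : Measurable fun z : ℝ × E3 => vv n z.2 := (measurable_vv n).comp measurable_snd
  have hcard : Module.finrank ℂ (EuclideanSpace ℂ (Fin n)) = Fintype.card (Fin n) := by simp
  have hiso := mu_iso2 k n
  have htot : ∫⁻ y, DA n y ∂(Measure.pi fun _ : Fin n => mu k) = ((n.factorial : ℕ) : ℝ≥0∞) := by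
    have := total_mass (μ := mu k) (δ := Fin n) hv hiso hcard
    rw [Fintype.card_fin] at this
    exact this
  have hfac0 : ((n.factorial : ℕ) : ℝ≥0∞) ≠ 0 := by
    exact_mod_cast (Nat.factorial_pos n).ne'
  have hfact : ((n.factorial : ℕ) : ℝ≥0∞) ≠ ∞ := ENNReal.natCast_ne_top _
  set P : Measure (Fin n → ℝ × E3) := (Measure.pi fun _ : Fin n => mu k).withDensity
    (fun y => ((n.factorial : ℕ) : ℝ≥0∞)⁻¹ * DA n y) with hP
  have hPint : ∀ {F : (Fin n → ℝ × E3) → ℝ≥0∞}, Measurable F → ∫⁻ y, F y ∂P =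
      ((n.factorial : ℕ) : ℝ≥0∞)⁻¹ * ∫⁻ y, DA n y * F y ∂(Measure.pi fun _ : Fin n => mu k) := by
    intro F hF
    have hmm : Measurable fun y => DA n y * F y := (measurable_DA n).mul hF
    rw [hP, lintegral_withDensity_eq_lintegral_mul _ ((measurable_DA n).const_mul _) hF,
      ← lintegral_const_mul _ hmm]
    refine lintegral_congr fun y => ?_
    simp only [Pi.mul_apply]
    rw [mul_assoc]
  have hPprob : IsProbabilityMeasure P := by
    constructor
    have h1 := hPint (F := fun _ => 1) measurable_const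
    simp only [mul_one, lintegral_const, one_mul] at h1
    rw [h1, htot, ENNReal.inv_mul_cancel hfac0 hfact]
  have hPac : P ≪ (Measure.pi fun _ : Fin n => mu k) := withDensity_absolutelyContinuous _ _
  have hgm : ∀ a b : Fin n, Measurable fun y : Fin n → ℝ × E3 => ph (y a) (y b) := fun a b => by
    have h1 : Measurable fun y : Fin n → ℝ × E3 => (y a, y b) :=
      (measurable_pi_apply a).prodMk (measurable_pi_apply b)
    have h2 := (measurable_ph.comp h1)
    exact h2
  set G : (Fin n → ℝ × E3) → ℝ := fun y => ∑ e ∈ edges n, ph (y e.1) (y e.2) with hG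
  set T : (Fin n → ℝ × E3) → ℝ := fun y => ∑ i, (t : ℝ) * (1 / (y i).1 - 1) with hT
  have hGm : Measurable G := Finset.measurable_fun_sum _ fun e _ => hgm e.1 e.2
  have him : ∀ i : Fin n, Measurable fun y : Fin n → ℝ × E3 => (y i).1 := fun i =>
    measurable_fst.comp (measurable_pi_apply i)
  have hTim : ∀ i : Fin n, Measurable fun y : Fin n → ℝ × E3 => (t : ℝ) * (1 / (y i).1 - 1) :=
    fun i => (((measurable_const.div (him i)).sub_const 1).const_mul _)
  have hTm : Measurable T := Finset.measurable_fun_sum _ fun i _ => hTim i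
  have hG0 : ∀ᵐ y ∂P, 0 ≤ G y := by
    filter_upwards [hPac.ae_le (mu_ae_good2 k n)] with y hy
    exact Finset.sum_nonneg fun e _ => ph_nonneg (hy _).1 (hy _).1
  have hinv : ∀ {r : ℝ}, r ∈ Ioo (0 : ℝ) 1 → 0 ≤ 1 / r - 1 := fun {r} hr => by
    have : 1 ≤ 1 / r := by
      rw [le_div_iff₀ hr.1]; linarith [hr.2]
    linarith
  have hT0 : ∀ᵐ y ∂P, 0 ≤ T y := by
    filter_upwards [hPac.ae_le (mu_ae_good2 k n)] with y hy
    exact Finset.sum_nonneg fun i _ => mul_nonneg (Nat.cast_nonneg _) (hinv (hy i).1)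
  set I2 := ∫⁻ y, ∫⁻ z, D2 (fun y : ℝ × E3 => vv n y.2) y z * ENNReal.ofReal (ph y z)
    ∂(mu k) ∂(mu k) with hI2
  set M := (ck n k - (256 * log (n : ℝ) + 2) / (n : ℝ)) / 2 with hM
  set N := (t : ℝ) * (n : ℝ) / ((k : ℝ) + 1) with hN
  have hN0 : 0 ≤ N := by positivity
  have hMG : ENNReal.ofReal M ≤ ∫⁻ y, ENNReal.ofReal (G y) ∂P := by
    have e1 : ∫⁻ y, ENNReal.ofReal (G y) ∂P =
        ∑ e ∈ edges n, ∫⁻ y, ENNReal.ofReal (ph (y e.1) (y e.2)) ∂P := by
      rw [← lintegral_finsetSum _ (fun e _ => (hgm e.1 e.2).ennreal_ofReal)]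
      refine lintegral_congr_ae ?_
      filter_upwards [hPac.ae_le (mu_ae_good2 k n)] with y hy
      simp only [hG]
      rw [ENNReal.ofReal_sum_of_nonneg]
      intro e _
      exact ph_nonneg (hy _).1 (hy _).1
    have e2 : ∀ e ∈ edges n, ∫⁻ y, ENNReal.ofReal (ph (y e.1) (y e.2)) ∂P =
        ((n.factorial : ℕ) : ℝ≥0∞)⁻¹ * ((((n - 2).factorial : ℕ) : ℝ≥0∞) * I2) := by
      intro e he
      have hne : e.1 ≠ e.2 := (mem_edges.mp he).ne
      have h1 := pair_integral (μ := mu k) hv hiso hcard hne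
        (F := fun s t => ENNReal.ofReal (ph s t)) measurable_ph.ennreal_ofReal
      rw [Fintype.card_fin] at h1
      have h2 : ∫⁻ y, DA n y * ENNReal.ofReal (ph (y e.1) (y e.2))
          ∂(Measure.pi fun _ : Fin n => mu k) = (((n - 2).factorial : ℕ) : ℝ≥0∞) * I2 := h1
      rw [hPint (hgm e.1 e.2).ennreal_ofReal, h2]
    rw [e1, Finset.sum_congr rfl e2, Finset.sum_const, nsmul_eq_mul]
    have hpl := pair_lower2 hn1 hk hkt
    have hnr : (1 : ℝ) ≤ n := by exact_mod_cast hn1
    have hln := log_nonneg hnr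
    have herr0 : 0 ≤ (256 * log (n : ℝ) + 2) / n := by positivity
    have hM2 : 0 ≤ ck n k - (256 * log (n : ℝ) + 2) / n := by
      have h7 : (ck n k - (256 * log (n : ℝ) + 2) / n) = 2 * M := by rw [hM]; ring
      rw [h7]
      linarith
    have hI2l : ENNReal.ofReal (ck n k - (256 * log (n : ℝ) + 2) / n) ≤ I2 := by
      have h3 : ENNReal.ofReal (ck n k - (256 * log (n : ℝ) + 2) / n) +
          ENNReal.ofReal ((256 * log (n : ℝ) + 2) / n) ≤
          I2 + ENNReal.ofReal ((256 * log (n : ℝ) + 2) / n) := by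
        rw [← ENNReal.ofReal_add hM2 herr0, sub_add_cancel]
        exact hpl
      exact (ENNReal.add_le_add_iff_right ENNReal.ofReal_ne_top).mp h3
    have hcst : ((edges n).card : ℝ≥0∞) * (((n.factorial : ℕ) : ℝ≥0∞)⁻¹ *
        (((n - 2).factorial : ℕ) : ℝ≥0∞)) = ENNReal.ofReal (1 / 2) := by
      obtain ⟨j, hj⟩ : ∃ j, n = j + 2 := ⟨n - 2, by omega⟩
      have h5 : ((n.factorial : ℕ) : ℝ≥0∞)⁻¹ = ENNReal.ofReal ((n.factorial : ℝ)⁻¹) := by
        rw [ENNReal.ofReal_inv_of_pos (by positivity), ENNReal.ofReal_natCast]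
      rw [h5, ← ENNReal.ofReal_natCast, ← ENNReal.ofReal_natCast,
        ← ENNReal.ofReal_mul (by positivity), ← ENNReal.ofReal_mul (by positivity)]
      congr 1
      have h6 := card_edges n
      have h7 : (n.factorial : ℝ) = n * ((n : ℝ) - 1) * ((n - 2).factorial : ℝ) := by
        rw [hj]
        rw [show j + 2 - 2 = j by omega, show j + 2 = (j + 1) + 1 by ring,
          Nat.factorial_succ (j + 1), Nat.factorial_succ j]
        push_cast
        ring
      rw [h7]
      have h8 : ((n - 2).factorial : ℝ) ≠ 0 := by positivity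
      have h9 : (n : ℝ) ≠ 0 := by positivity
      have h10 : (n : ℝ) - 1 ≠ 0 := by
        have : (2 : ℝ) ≤ n := by exact_mod_cast hn2
        linarith
      have h11 : ((edges n).card : ℝ) = ((n : ℝ) - 1) * n / 2 := by linarith
      rw [h11]
      field_simp
    calc ENNReal.ofReal M =
          ENNReal.ofReal (1 / 2) * ENNReal.ofReal (ck n k - (256 * log (n : ℝ) + 2) / n) := by
          rw [← ENNReal.ofReal_mul (by norm_num)]
          congr 1
          ring
      _ ≤ ENNReal.ofReal (1 / 2) * I2 := by gcongr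
      _ = _ := by rw [← hcst]; ring
  have hNT : ∫⁻ y, ENNReal.ofReal (T y) ∂P ≤ ENNReal.ofReal N := by
    have e1 : ∫⁻ y, ENNReal.ofReal (T y) ∂P =
        ∑ i, ∫⁻ y, ENNReal.ofReal ((t : ℝ) * (1 / (y i).1 - 1)) ∂P := by
      rw [← lintegral_finsetSum _ (fun i _ => (hTim i).ennreal_ofReal)]
      refine lintegral_congr_ae ?_
      filter_upwards [hPac.ae_le (mu_ae_good2 k n)] with y hy
      simp only [hT]
      rw [ENNReal.ofReal_sum_of_nonneg]
      intro i _
      exact mul_nonneg (Nat.cast_nonneg _) (hinv (hy i).1)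
    have e2 : ∀ i : Fin n, ∫⁻ y, ENNReal.ofReal ((t : ℝ) * (1 / (y i).1 - 1)) ∂P ≤
        ENNReal.ofReal ((t : ℝ) * (1 / ((k : ℝ) + 1))) := by
      intro i
      rw [hPint (hTim i).ennreal_ofReal]
      have hM' : ∀ᵐ s ∂(mu k), ‖vv n s.2‖ ^ 2 ≤ (n : ℝ) := by
        filter_upwards [mu_ae k] with s hs
        rw [norm_vv_sq hs.2]
      have h1 := three_bound' (μ := mu k) hv hiso hcard (n : ℝ) hM' (A := {i})
        (G := fun y => ENNReal.ofReal ((t : ℝ) * (1 / (y i).1 - 1))) (hTim i).ennreal_ofReal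
        (by
          intro j hj y s
          have : i ≠ j := fun h => hj (by simp [h])
          simp only [Function.update_of_ne this])
      rw [Fintype.card_fin, Finset.card_singleton, pow_one] at h1
      have h2 : ∫⁻ y, ENNReal.ofReal ((t : ℝ) * (1 / (y i).1 - 1))
          ∂(Measure.pi fun _ : Fin n => mu k) = ENNReal.ofReal ((t : ℝ) * (1 / ((k : ℝ) + 1))) := by
        have hm : Measurable fun s : ℝ × E3 => ENNReal.ofReal ((t : ℝ) * (1 / s.1 - 1)) := by
          fun_prop
        have h3 := (measurePreserving_eval (fun _ : Fin n => mu k) i).lintegral_comp hm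
        have h4 : ∫⁻ y, ENNReal.ofReal ((t : ℝ) * (1 / (y i).1 - 1))
          ∂(Measure.pi fun _ : Fin n => mu k) =
            ∫⁻ s, ENNReal.ofReal ((t : ℝ) * (1 / s.1 - 1)) ∂(mu k) := h3
        rw [h4]
        unfold mu
        rw [lintegral_prod _ hm.aemeasurable]
        simp only [lintegral_const, measure_univ, mul_one]
        have h5 : ∀ r : ℝ, ENNReal.ofReal ((t : ℝ) * (1 / r - 1)) =
            ENNReal.ofReal (t : ℝ) * ENNReal.ofReal (1 / r - 1) := fun r =>
          ENNReal.ofReal_mul (Nat.cast_nonneg _)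
        simp only [h5]
        rw [lintegral_const_mul _ (by fun_prop), E_inv, ← ENNReal.ofReal_mul (Nat.cast_nonneg _)]
      rw [h2] at h1
      have h6 : (((n - 1).factorial : ℕ) : ℝ≥0∞) * ENNReal.ofReal (n : ℝ) =
          ((n.factorial : ℕ) : ℝ≥0∞) := by
        rw [ENNReal.ofReal_natCast, ← Nat.cast_mul, mul_comm]
        congr 1
        exact Nat.mul_factorial_pred (by omega)
      rw [h6] at h1
      calc _ ≤ ((n.factorial : ℕ) : ℝ≥0∞)⁻¹ * (((n.factorial : ℕ) : ℝ≥0∞) *
            ENNReal.ofReal ((t : ℝ) * (1 / ((k : ℝ) + 1)))) := mul_le_mul' le_rfl h1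
        _ = _ := by rw [← mul_assoc, ENNReal.inv_mul_cancel hfac0 hfact, one_mul]
    rw [e1]
    refine (Finset.sum_le_sum fun i _ => e2 i).trans (le_of_eq ?_)
    rw [Finset.sum_const, Finset.card_univ, Fintype.card_fin, nsmul_eq_mul,
      ← ENNReal.ofReal_natCast, ← ENNReal.ofReal_mul (by positivity)]
    congr 1
    rw [hN]
    ring
  have hJ := jensen_diff hGm hTm hN0 h0 hMG hNT hG0 hT0
  set c := ((n : ℝ) + 2) / ((k : ℝ) + 2) with hc
  have hc0 : 0 ≤ c := by positivity
  -- change of the radial law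
  have hmu : (Measure.pi fun _ : Fin n => mu n) = (Measure.pi fun _ : Fin n => mu k).withDensity
      (fun y => ∏ i : Fin n, (ENNReal.ofReal c * ENNReal.ofReal ((y i).1 ^ t))) := by
    have hch := mu_change k t
    set g0 : ℝ × E3 → ℝ≥0∞ := fun y : ℝ × E3 =>
      ENNReal.ofReal ((((k + t : ℕ) : ℝ) + 2) / ((k : ℝ) + 2)) *
      ENNReal.ofReal (y.1 ^ t) with hg0
    have hg0m : Measurable g0 := by rw [hg0]; fun_prop
    have hsf0 : SigmaFinite ((mu k).withDensity g0) := by rw [← hch]; infer_instance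
    have h1 := pi_withDensity (δ := Fin n) (fun _ => mu k) (f := fun _ => g0) (fun i => hg0m)
    rw [← hch] at h1
    exact h1
  have hwm : Measurable fun y : Fin n → ℝ × E3 =>
      ∏ i : Fin n, (ENNReal.ofReal c * ENNReal.ofReal ((y i).1 ^ t)) :=
    Finset.measurable_fun_prod _ fun i _ =>
      (((him i).pow_const t).ennreal_ofReal).const_mul _
  have hfin : ENNReal.ofReal (c ^ n) * ∫⁻ y, ENNReal.ofReal (exp (G y - T y)) ∂P ≤
      ((n.factorial : ℕ) : ℝ≥0∞)⁻¹ *
      (Kc n * ∫⁻ y, PA n y ∂(Measure.pi fun _ : Fin n => mu n)) := by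
    rw [hPint (by fun_prop), hmu, lintegral_withDensity_eq_lintegral_mul _ hwm (measurable_PA n)]
    have hmm : Measurable fun y => DA n y * ENNReal.ofReal (exp (G y - T y)) :=
      (measurable_DA n).mul (by fun_prop)
    have hmm2 : Measurable ((fun y : Fin n → ℝ × E3 =>
      ∏ i : Fin n, (ENNReal.ofReal c * ENNReal.ofReal ((y i).1 ^ t))) * PA n) :=
      hwm.mul (measurable_PA n)
    rw [← lintegral_const_mul _ hmm2, mul_left_comm, ← lintegral_const_mul _ hmm]
    refine mul_le_mul' le_rfl ?_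
    refine lintegral_mono_ae ?_
    filter_upwards [mu_ae_good2 k n, mu_ae_dist2 k n] with y hy hd
    have e0 : Kc n * (((fun y : Fin n → ℝ × E3 =>
      ∏ i : Fin n, (ENNReal.ofReal c * ENNReal.ofReal ((y i).1 ^ t))) * PA n) y) =
        (∏ i : Fin n, (ENNReal.ofReal c * ENNReal.ofReal ((y i).1 ^ t))) * (Kc n * PA n y) := by
      simp only [Pi.mul_apply]
      ring
    rw [e0, KPA_eq hy hd]
    have e1 : ∏ i : Fin n, (ENNReal.ofReal c * ENNReal.ofReal ((y i).1 ^ t)) =
        ENNReal.ofReal (c ^ n) * ENNReal.ofReal (∏ i : Fin n, (y i).1 ^ t) := by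
      rw [Finset.prod_mul_distrib, Finset.prod_const, Finset.card_univ, Fintype.card_fin,
        ENNReal.ofReal_pow hc0, ENNReal.ofReal_prod_of_nonneg]
      intro i _
      have := (hy i).1.1
      positivity
    rw [e1]
    have e2 : exp (G y - T y) ≤ (∏ i : Fin n, (y i).1 ^ t) *
        ∏ e ∈ edges n, (1 + ff (y e.1) (y e.2)) := by
      rw [sub_eq_add_neg, exp_add, mul_comm]
      refine mul_le_mul ?_ ?_ (exp_pos _).le (Finset.prod_nonneg fun i _ => by
        have := (hy i).1.1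
        positivity)
      · simp only [hT]
        rw [← Finset.sum_neg_distrib, exp_sum]
        refine Finset.prod_le_prod (fun i _ => (exp_pos _).le) fun i _ => ?_
        have hr := (hy i).1.1
        have h3 := one_sub_inv_le_log_of_pos hr
        calc exp (-((t : ℝ) * (1 / (y i).1 - 1))) ≤ exp ((t : ℝ) * log (y i).1) := by
              refine exp_le_exp.mpr ?_
              have : (t : ℝ) * (1 - (y i).1⁻¹) ≤ t * log (y i).1 :=
                mul_le_mul_of_nonneg_left h3 (Nat.cast_nonneg _)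
              rw [one_div]
              linarith
          _ = _ := by rw [exp_nat_mul, exp_log hr]
      · simp only [hG]
        rw [exp_sum]
        refine Finset.prod_le_prod (fun e _ => (exp_pos _).le) fun e he => ?_
        have h1 := ff_nonneg (hy e.1).1 (hy e.2).1
        have h2 : 0 < 1 + ff (y e.1) (y e.2) := by linarith
        rw [← ph_eq (hy e.1).1 (hy e.2).1 (hd e he)]
        have h3 := one_sub_inv_le_log_of_pos h2
        have h4 : ff (y e.1) (y e.2) / (1 + ff (y e.1) (y e.2)) =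
            1 - (1 + ff (y e.1) (y e.2))⁻¹ := by
          field_simp
          ring
        rw [h4]
        calc exp (1 - (1 + ff (y e.1) (y e.2))⁻¹) ≤ exp (log (1 + ff (y e.1) (y e.2))) :=
              exp_le_exp.mpr h3
          _ = _ := exp_log h2
    have hpr0 : 0 ≤ ∏ i : Fin n, (y i).1 ^ t := Finset.prod_nonneg fun i _ => by
        have := (hy i).1.1
        positivity
    calc ENNReal.ofReal (c ^ n) * (DA n y * ENNReal.ofReal (exp (G y - T y))) ≤
          ENNReal.ofReal (c ^ n) * (DA n y * ENNReal.ofReal ((∏ i : Fin n, (y i).1 ^ t) *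
        ∏ e ∈ edges n, (1 + ff (y e.1) (y e.2)))) := by
          gcongr
      _ = _ := by
          rw [ENNReal.ofReal_mul hpr0]
          ring
  have hend := (mul_le_mul' le_rfl hJ).trans hfin
  calc ENNReal.ofReal ((n.factorial : ℝ) * c ^ n * exp (M - N)) =
        ((n.factorial : ℕ) : ℝ≥0∞) *
          (ENNReal.ofReal (c ^ n) * ENNReal.ofReal (exp (M - N))) := by
        rw [ENNReal.ofReal_mul (by positivity), ENNReal.ofReal_mul (by positivity),
          ENNReal.ofReal_natCast, mul_assoc]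
    _ ≤ ((n.factorial : ℕ) : ℝ≥0∞) * (((n.factorial : ℕ) : ℝ≥0∞)⁻¹ *
      (Kc n * ∫⁻ y, PA n y ∂(Measure.pi fun _ : Fin n => mu n))) := by gcongr
    _ = _ := by rw [← mul_assoc, ENNReal.mul_inv_cancel hfac0 hfact, one_mul]

/-- Real form. -/
lemma EE_lower2 {k t : ℕ} (hk : 1 ≤ k) (hkt : k + t ≤ 2 * k) (hn2 : 3 ≤ k + t)
    (h0 : 0 ≤ (ck (k + t) k - (256 * log ((k + t : ℕ) : ℝ) + 2) / ((k + t : ℕ) : ℝ)) / 2) :
      ((((k + t : ℕ) : ℝ) + 2) / ((k : ℝ) + 2)) ^ (k + t) *
      exp ((ck (k + t) k - (256 * log ((k + t : ℕ) : ℝ) + 2) / ((k + t : ℕ) : ℝ)) / 2 -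
        (t : ℝ) * ((k + t : ℕ) : ℝ) / ((k : ℝ) + 1)) ≤ EE (k + t) := by
  have h := lower2 hk hkt (by omega) h0
  have hfac : (0 : ℝ) < ((k + t).factorial : ℝ) := by positivity
  have hK := Kpos (k + t) (by omega)
  have hne : Kc (k + t) * ∫⁻ y, PA (k + t) y ∂(Measure.pi fun _ : Fin (k + t) => mu (k + t)) ≠ ∞ := by
    refine ENNReal.mul_ne_top (by unfold Kc; exact ENNReal.ofReal_ne_top) ?_
    obtain ⟨m, hm⟩ : ∃ m, k + t = m + 1 := ⟨k + t - 1, by omega⟩
    rw [hm]
    exact PA_ne_top m (by omega)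
  have h2 := ENNReal.toReal_mono hne h
  rw [ENNReal.toReal_mul, ENNReal.toReal_ofReal (by positivity)] at h2
  have h3 : (Kc (k + t)).toReal = ∏ j : Fin (k + t), cc (k + t) j ^ 2 := by
    unfold Kc
    rw [ENNReal.toReal_ofReal hK.le]
  rw [h3] at h2
  unfold EE
  rw [le_div_iff₀ hfac]
  linarith

end Pool.Agent.Helper44.Ball3
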