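import Mathlib
import Pool.Agent.Helper44.NCF.Low3

set_option autoImplicit false
set_option maxHeartbeats 4000000
set_option synthInstance.maxHeartbeats 400000

open MeasureTheory Set Real Filter Topology
open scoped ENNReal InnerProductSpace

namespace Pool.Agent.Helper44.Ball3

lemma expo_ineq {N L τ γ H : ℝ} (hL : 10000 ≤ L) (hLN : L ≤ N / 100) (hτ1 : L / 2 - 1 ≤ τ)
    (hτ2 : τ ≤ L / 2) (hγ0 : 0 ≤ γ) (hH : L + γ - 1 / N ≤ H) :
    (L + γ) / 4 + L ^ 2 / (16 * N) ≤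
      N * (τ / (N - τ + 2) - τ ^ 2 / (2 * (N - τ + 2) ^ 2)) +
      (N ^ 2 * H / (2 * ((N - τ + 1) * (N - τ + 3))) - (256 * L + 2) / N) / 2 -
        τ * N / (N - τ + 1) := by
  have hN : 1000000 ≤ N := by linarith
  have hN0 : 0 < N := by linarith
  set q := τ - 2 with hq
  have hq0 : 4000 ≤ q := by linarith
  have hqN : q ≤ N / 200 := by linarith
  have hqL : q ≤ L / 2 := by linarith
  have hqL2 : L / 2 - 3 ≤ q := by linarith
  have hτ : τ = q + 2 := by linarith
  rw [hτ]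
  have e1 : N - (q + 2) + 2 = N - q := by ring
  have e2 : N - (q + 2) + 1 = N - q - 1 := by ring
  have e3 : N - (q + 2) + 3 = N - q + 1 := by ring
  rw [e1, e2, e3]
  have hA : 0.99 * N ≤ N - q - 1 := by linarith
  have hA0 : 0 < N - q - 1 := by linarith
  have hB0 : 0 < N - q := by linarith
  have hC0 : 0 < N - q + 1 := by linarith
  -- pair term
  have hH0 : 0 ≤ L + γ - 1 / N := by
    have : 1 / N ≤ 1 := by
      rw [div_le_one hN0]; linarith
    linarith
  have s1 : (1 + 2 * q / N) ≤ N ^ 2 / ((N - q - 1) * (N - q + 1)) := by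
    rw [le_div_iff₀ (by positivity)]
    have h1 : (1 + 2 * q / N) * ((N - q - 1) * (N - q + 1)) ≤ (1 + 2 * q / N) * (N - q) ^ 2 := by
      have : 0 ≤ 1 + 2 * q / N := by positivity
      refine mul_le_mul_of_nonneg_left ?_ this
      nlinarith
    refine h1.trans ?_
    have h2 : (1 + 2 * q / N) * (N - q) ^ 2 = (N + 2 * q) * (N - q) ^ 2 / N := by
      field_simp
    rw [h2, div_le_iff₀ hN0]
    have h3 : (N + 2 * q) * (N - q) ^ 2 = N ^ 3 - q ^ 2 * (3 * N - 2 * q) := by ring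
    rw [h3]
    have h4 : 0 ≤ q ^ 2 * (3 * N - 2 * q) := mul_nonneg (by positivity) (by linarith)
    nlinarith
  have s2 : (1 + 2 * q / N) * (L + γ - 1 / N) / 2 ≤
      N ^ 2 * H / (2 * ((N - q - 1) * (N - q + 1))) := by
    have h1 : N ^ 2 * H / (2 * ((N - q - 1) * (N - q + 1))) =
        N ^ 2 / ((N - q - 1) * (N - q + 1)) * H / 2 := by
      field_simp
    rw [h1]
    have h2 : (1 + 2 * q / N) * (L + γ - 1 / N) ≤ N ^ 2 / ((N - q - 1) * (N - q + 1)) * H :=
      mul_le_mul s1 hH hH0 (by positivity)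
    linarith
  have s3 : -(1.1 * (q + 2) / N) ≤ N * ((q + 2) / (N - q)) - (q + 2) * N / (N - q - 1) := by
    have h1 : N * ((q + 2) / (N - q)) - (q + 2) * N / (N - q - 1) =
        -((q + 2) * N / ((N - q) * (N - q - 1))) := by
      field_simp
      ring
    rw [h1]
    refine neg_le_neg ?_
    rw [div_le_div_iff₀ (by positivity) hN0]
    have h2 : N * N ≤ 1.1 * ((N - q) * (N - q - 1)) := by nlinarith
    calc (q + 2) * N * N = (q + 2) * (N * N) := by ring
      _ ≤ (q + 2) * (1.1 * ((N - q) * (N - q - 1))) := by gcongr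
      _ = _ := by ring
  have s4 : N * ((q + 2) ^ 2 / (2 * (N - q) ^ 2)) ≤ 1.1 * (q + 2) ^ 2 / (2 * N) := by
    rw [mul_div_assoc', div_le_div_iff₀ (by positivity) (by positivity)]
    have h2 : N * N ≤ 1.1 * (N - q) ^ 2 := by nlinarith
    calc N * (q + 2) ^ 2 * (2 * N) = 2 * (q + 2) ^ 2 * (N * N) := by ring
      _ ≤ 2 * (q + 2) ^ 2 * (1.1 * (N - q) ^ 2) := by gcongr
      _ = _ := by ring
  have h5 : N * ((q + 2) / (N - q) - (q + 2) ^ 2 / (2 * (N - q) ^ 2)) =
      N * ((q + 2) / (N - q)) - N * ((q + 2) ^ 2 / (2 * (N - q) ^ 2)) := by ring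
  rw [h5]
  have key : (L + γ) / 4 + L ^ 2 / (16 * N) ≤ (1 + 2 * q / N) * (L + γ - 1 / N) / 4 -
      (128 * L + 1) / N - 1.1 * (q + 2) / N - 1.1 * (q + 2) ^ 2 / (2 * N) := by
    have h6 : (1 + 2 * q / N) * (L + γ - 1 / N) / 4 -
      (128 * L + 1) / N - 1.1 * (q + 2) / N - 1.1 * (q + 2) ^ 2 / (2 * N) -
        ((L + γ) / 4 + L ^ 2 / (16 * N)) =
        (q * (L + γ) / 2 - 1 / 4 - (128 * L + 1) - 1.1 * (q + 2) - 1.1 * (q + 2) ^ 2 / 2 -
          L ^ 2 / 16) / N - q / (2 * N ^ 2) := by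
      field_simp
      ring
    have h7 : q / (2 * N ^ 2) ≤ 1 / N := by
      rw [div_le_div_iff₀ (by positivity) hN0]
      nlinarith
    have h8 : 1 ≤ q * (L + γ) / 2 - 1 / 4 - (128 * L + 1) - 1.1 * (q + 2) -
        1.1 * (q + 2) ^ 2 / 2 - L ^ 2 / 16 := by
      have h9 : q * L ≤ q * (L + γ) := by
        refine mul_le_mul_of_nonneg_left ?_ (by linarith)
        linarith
      have h10 : (L / 2 - 3) * (L - 1.1 * (L / 2)) ≤ q * (L - 1.1 * q) := by
        have h11 : 0 ≤ L - 1.1 * (L / 2) := by linarith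
        have h12 : L - 1.1 * (L / 2) ≤ L - 1.1 * q := by linarith
        exact mul_le_mul hqL2 h12 h11 (by linarith)
      nlinarith
    have h13 : 1 / N ≤ (q * (L + γ) / 2 - 1 / 4 - (128 * L + 1) - 1.1 * (q + 2) -
        1.1 * (q + 2) ^ 2 / 2 - L ^ 2 / 16) / N := by
      gcongr
    linarith
  have h14 : (256 * L + 2) / N / 2 = (128 * L + 1) / N := by field_simp; ring
  linarith

lemma two_div_le_log {x : ℝ} (hx : 0 ≤ x) : x - x ^ 2 / 2 ≤ log (1 + x) := by
  have h := Real.le_log_one_add_of_nonneg hx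
  refine le_trans ?_ h
  rw [le_div_iff₀ (by linarith)]
  nlinarith [pow_nonneg hx 3]

/-- Refined lower bound for the ball integral. -/
theorem ball_lower : ∀ᶠ n : ℕ in atTop, exp ((log (n : ℝ)) ^ 2 / (16 * n)) ≤ FB n / CF n := by
  have hlog : Tendsto (fun n : ℕ => log (n : ℝ)) atTop atTop :=
    tendsto_log_atTop.comp tendsto_natCast_atTop_atTop
  have h100 : ∀ᶠ n : ℕ in atTop, log (n : ℝ) / n ≤ 1 / 100 :=
    tendsto_log_div.eventually_le_const (by norm_num)
  filter_upwards [hlog.eventually_ge_atTop 10000, h100, eventually_ge_atTop 3] with n hL hLN hn3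
  have hn0 : (0 : ℝ) < n := by
    have : 0 < n := by omega
    exact_mod_cast this
  set L := log (n : ℝ) with hLd
  have hLN' : L ≤ n / 100 := by
    rw [div_le_iff₀ hn0] at hLN
    linarith
  set t := ⌊L / 2⌋₊ with ht
  have ht1 : (t : ℝ) ≤ L / 2 := Nat.floor_le (by linarith)
  have ht2 : L / 2 - 1 ≤ t := by
    have := Nat.lt_floor_add_one (L / 2)
    rw [← ht] at this
    linarith
  have htn : (t : ℝ) ≤ n / 200 := by linarith
  have htn2 : 2 * t ≤ n := by
    have : (2 : ℝ) * t ≤ n := by linarith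
    exact_mod_cast this
  obtain ⟨k, hk⟩ : ∃ k, n = k + t := ⟨n - t, by omega⟩
  have hkr : (k : ℝ) = n - t := by
    rw [hk]; push_cast; ring
  have hk1 : 1 ≤ k := by
    have : (1 : ℝ) ≤ k := by
      rw [hkr]
      have : (1000000 : ℝ) ≤ n := by linarith
      linarith
    exact_mod_cast this
  have hH : L + eulerMascheroniConstant - 1 / n ≤ (harmonic (n - 1) : ℝ) := by
    have h1 := eulerMascheroniConstant_lt_eulerMascheroniSeq' n
    unfold eulerMascheroniSeq' at h1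
    rw [if_neg (by omega)] at h1
    have h2 : (harmonic n : ℝ) = (harmonic (n - 1) : ℝ) + 1 / n := by
      obtain ⟨j, rfl⟩ : ∃ j, n = j + 1 := ⟨n - 1, by omega⟩
      rw [harmonic_succ]
      push_cast
      simp
    linarith
  have hgam : 0 ≤ eulerMascheroniConstant := by
    have := one_half_lt_eulerMascheroniConstant
    linarith
  have key := expo_ineq (N := n) (L := L) (τ := t) (γ := eulerMascheroniConstant)
    (H := (harmonic (n - 1) : ℝ)) hL hLN' ht2 ht1 hgam hH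
  rw [← hkr] at key
  have hck : ck (k + t) k = (n : ℝ) ^ 2 * (harmonic (n - 1) : ℝ) /
      (2 * (((k : ℝ) + 1) * ((k : ℝ) + 3))) := by
    unfold ck
    rw [← hk]
  have hMpos : 0 ≤ (ck (k + t) k - (256 * log ((k + t : ℕ) : ℝ) + 2) / ((k + t : ℕ) : ℝ)) / 2 := by
    rw [hck, ← hk, ← hLd]
    have h1 : (256 * L + 2) / (n : ℝ) ≤ 3 := by
      rw [div_le_iff₀ hn0]
      linarith
    have h2 : (L + eulerMascheroniConstant - 1 / n) / 2 ≤ (n : ℝ) ^ 2 * (harmonic (n - 1) : ℝ) /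
      (2 * (((k : ℝ) + 1) * ((k : ℝ) + 3))) := by
      have h3 : (n : ℝ) ^ 2 * (harmonic (n - 1) : ℝ) / (2 * (((k : ℝ) + 1) * ((k : ℝ) + 3))) =
        (n : ℝ) ^ 2 / (((k : ℝ) + 1) * ((k : ℝ) + 3)) * (harmonic (n - 1) : ℝ) / 2 := by
        field_simp
      rw [h3]
      have h4 : 1 ≤ (n : ℝ) ^ 2 / (((k : ℝ) + 1) * ((k : ℝ) + 3)) := by
        rw [le_div_iff₀ (by positivity), one_mul]
        have h5 : (k : ℝ) + 3 ≤ n := by rw [hkr]; linarith
        have h6 : (0 : ℝ) ≤ k := Nat.cast_nonneg _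
        nlinarith
      have h7 := harm_nonneg (n - 1)
      nlinarith
    have h8 : 1 / (n : ℝ) ≤ 1 := by
      rw [div_le_one hn0]
      linarith
    linarith
  have hE := EE_lower2 hk1 (by omega) (by omega) hMpos
  rw [hck, ← hk, ← hLd] at hE
  have hk2 : (0 : ℝ) < (k : ℝ) + 2 := by positivity
  -- the power
  have hpow : exp (n * ((t : ℝ) / ((k : ℝ) + 2) - (t : ℝ) ^ 2 / (2 * ((k : ℝ) + 2) ^ 2))) ≤
      (((n : ℝ) + 2) / ((k : ℝ) + 2)) ^ n := by
    have h1 : ((n : ℝ) + 2) / ((k : ℝ) + 2) = 1 + (t : ℝ) / ((k : ℝ) + 2) := by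
      rw [hkr]
      have : (n : ℝ) - t + 2 ≠ 0 := by
        rw [← hkr]; positivity
      field_simp
      ring
    have h2 := two_div_le_log (x := (t : ℝ) / ((k : ℝ) + 2)) (by positivity)
    have h3 : (t : ℝ) / ((k : ℝ) + 2) - (t : ℝ) ^ 2 / (2 * ((k : ℝ) + 2) ^ 2) ≤
        log (((n : ℝ) + 2) / ((k : ℝ) + 2)) := by
      rw [h1]
      refine le_trans (le_of_eq ?_) h2
      rw [div_pow]
      field_simp
    calc _ ≤ exp (n * log (((n : ℝ) + 2) / ((k : ℝ) + 2))) := by gcongr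
      _ = _ := by rw [exp_nat_mul, exp_log (by positivity)]
  have hfin : exp ((L + eulerMascheroniConstant) / 4 + L ^ 2 / (16 * n)) ≤ EE n := by
    refine le_trans ?_ hE
    calc _ ≤ exp (n * ((t : ℝ) / ((k : ℝ) + 2) - (t : ℝ) ^ 2 / (2 * ((k : ℝ) + 2) ^ 2)) +
        (((n : ℝ) ^ 2 * (harmonic (n - 1) : ℝ) / (2 * (((k : ℝ) + 1) * ((k : ℝ) + 3))) -
        (256 * L + 2) / n) / 2 - t * n / ((k : ℝ) + 1))) := by
          refine exp_le_exp.mpr ?_
          linarith
      _ ≤ _ := by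
          rw [exp_add]
          exact mul_le_mul_of_nonneg_right hpow (exp_pos _).le
  rw [ratio_eq n (by omega), ← hLd]
  have h9 : 1 ≤ exp 2 / (1 + 2 / (n : ℝ)) ^ n := by
    rw [le_div_iff₀ (by positivity), one_mul]
    have h10 : 1 + 2 / (n : ℝ) ≤ exp (2 / n) := by
      have := add_one_le_exp (2 / (n : ℝ))
      linarith
    calc (1 + 2 / (n : ℝ)) ^ n ≤ (exp (2 / n)) ^ n := by gcongr
      _ = exp 2 := by
        rw [← exp_nat_mul]
        congr 1
        field_simp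
  have h11 : exp (L ^ 2 / (16 * n)) ≤ EE n * exp (-(L + eulerMascheroniConstant) / 4) := by
    calc exp (L ^ 2 / (16 * n)) = exp ((L + eulerMascheroniConstant) / 4 + L ^ 2 / (16 * n)) *
          exp (-(L + eulerMascheroniConstant) / 4) := by
          rw [← exp_add]; congr 1; ring
      _ ≤ _ := mul_le_mul_of_nonneg_right hfin (exp_pos _).le
  calc exp (L ^ 2 / (16 * n)) = exp (L ^ 2 / (16 * n)) * 1 := (mul_one _).symm
    _ ≤ _ := mul_le_mul h11 h9 zero_le_one ((exp_pos _).le.trans h11)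

end Pool.Agent.Helper44.Ball3
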