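import Mathlib
import Pool.Agent.Helper44.NCF.Exp4
import Pool.Agent.Helper44.NCF.Low4

set_option autoImplicit false
set_option maxHeartbeats 1000000

open Set Real Filter Topology Asymptotics

namespace Pool.Agent.Helper44.NCF

open Pool.Agent.Helper44.Ball3

/-- The invariant of product type closed forms. -/
def Inv (f : ℕ → ℝ) : Prop := (∀ᶠ n in atTop, 0 < f n) ∧ HasW (fun n => Real.log (f n))

lemma Inv.poly {p : Polynomial ℝ} (h : ∀ᶠ n : ℕ in atTop, 0 < p.eval (n : ℝ)) :
    Inv (fun n => p.eval (n : ℝ)) := by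
  refine ⟨h, log_poly ?_⟩
  rintro rfl
  obtain ⟨n, hn⟩ := h.exists
  simp at hn

lemma Inv.mul {f g : ℕ → ℝ} (hf : Inv f) (hg : Inv g) : Inv (fun n => f n * g n) := by
  refine ⟨?_, (hf.2.add hg.2).congr ?_⟩
  · filter_upwards [hf.1, hg.1] with n h1 h2
    positivity
  · filter_upwards [hf.1, hg.1] with n h1 h2
    exact Real.log_mul h1.ne' h2.ne'

lemma Inv.pow {f : ℕ → ℝ} (hf : Inv f) (p : Polynomial ℝ) :
    Inv (fun n => f n ^ (p.eval (n : ℝ))) := by
  refine ⟨?_, (hf.2.mul_poly p).congr ?_⟩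
  · filter_upwards [hf.1] with n h1
    positivity
  · filter_upwards [hf.1] with n h1
    exact Real.log_rpow h1 _

lemma Inv.prod {f : ℕ → ℝ} (hf : Inv f) (h : ∀ k, 0 < f k) :
    Inv (fun n => ∏ k ∈ Finset.range n, f k) := by
  refine ⟨Eventually.of_forall fun n => Finset.prod_pos fun k _ => h k,
    hf.2.sumRange.congr (Eventually.of_forall fun n => ?_)⟩
  exact Real.log_prod fun k _ => (h k).ne'

lemma Inv.subst {f : ℕ → ℝ} (hf : Inv f) {a : ℕ} (ha : 0 < a) (b : ℕ) :
    Inv (fun n => f (a * n + b)) := by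
  have hT : Tendsto (fun n : ℕ => a * n + b) atTop atTop :=
    tendsto_atTop_mono (fun n => by simp only [id]; nlinarith) tendsto_id
  exact ⟨hT.eventually hf.1, hf.2.subst ha b⟩

lemma Inv.congr {f g : ℕ → ℝ} (hf : Inv f) (h : ∀ᶠ n in atTop, g n = f n) : Inv g := by
  refine ⟨?_, hf.2.congr ?_⟩
  · filter_upwards [hf.1, h] with n h1 h2
    rw [h2]; exact h1
  · filter_upwards [h] with n h1
    rw [h1]

lemma Inv.const {c : ℝ} (hc : 0 < c) : Inv (fun _ => c) := by
  have h := Inv.poly (p := Polynomial.C c) (Eventually.of_forall fun n => by simpa using hc)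
  simpa using h

lemma Inv.nat : Inv (fun n : ℕ => (n : ℝ)) := by
  have h := Inv.poly (p := Polynomial.X) (by
    filter_upwards [eventually_gt_atTop 0] with n hn
    simpa using hn)
  simpa using h

lemma Inv.factorial : Inv (fun n : ℕ => (n.factorial : ℝ)) := by
  have h := Inv.poly (p := Polynomial.X + 1) (Eventually.of_forall fun n => by
    simp only [Polynomial.eval_add, Polynomial.eval_X, Polynomial.eval_one]
    positivity)
  have h2 := h.prod (fun k => by
    simp only [Polynomial.eval_add, Polynomial.eval_X, Polynomial.eval_one]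
    positivity)
  refine h2.congr (Eventually.of_forall fun n => ?_)
  rw [← Finset.prod_range_add_one_eq_factorial]
  push_cast
  refine Finset.prod_congr rfl fun k _ => ?_
  simp

lemma Inv.CF : Inv CF := by
  have h1 : Inv (fun _ : ℕ => exp (eulerMascheroniConstant / 4 - 2)) := Inv.const (exp_pos _)
  have h2 := Inv.nat.pow (Polynomial.C (1 / 4) - Polynomial.X)
  have h3 := (Inv.const (c := 2) (by norm_num)).pow (Polynomial.X * (Polynomial.X + 1))
  have h4 := (Inv.const pi_pos).pow Polynomial.X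
  have h5 := Inv.factorial.pow (1 - Polynomial.X)
  have h6 := (Inv.factorial.pow (Polynomial.C 2)).prod (fun k => by
    have : (0 : ℝ) < (k.factorial : ℝ) := by positivity
    positivity)
  refine (((((h1.mul h2).mul h3).mul h4).mul h5).mul h6).congr
    (Eventually.of_forall fun n => ?_)
  unfold Ball3.CF
  simp only [Polynomial.eval_sub, Polynomial.eval_C, Polynomial.eval_X, Polynomial.eval_mul,
    Polynomial.eval_add, Polynomial.eval_one]
  congr 1
  · congr 1
    · congr 1
      · congr 1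
        have : ((n : ℝ) * ((n : ℝ) + 1)) = ((n * (n + 1) : ℕ) : ℝ) := by push_cast; ring
        rw [this, rpow_natCast]
      · rw [rpow_natCast]
    · have : (1 - (n : ℝ)) = ((1 - (n : ℤ) : ℤ) : ℝ) := by push_cast; ring
      rw [this, rpow_intCast]
  · refine Finset.prod_congr rfl fun k _ => ?_
    have : (2 : ℝ) = ((2 : ℕ) : ℝ) := by norm_num
    rw [this, rpow_natCast]

lemma CF_pos {n : ℕ} (hn : 0 < n) : 0 < CF n := by
  have hn0 : (0 : ℝ) < n := by exact_mod_cast hn
  unfold CF
  have h1 : 0 < ∏ k ∈ Finset.range n, ((k.factorial : ℝ)) ^ 2 :=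
    Finset.prod_pos fun k _ => by positivity
  have := pi_pos
  have : (0 : ℝ) < (n.factorial : ℝ) := by positivity
  positivity

/-- No product type closed form agrees with the ball integral infinitely often along an arithmetic
progression. -/
theorem no_closed_form {f : ℕ → ℝ} (hf : Inv f) {a : ℕ} (ha : 0 < a) (b : ℕ) :
    ∀ᶠ m : ℕ in atTop, FB (a * m + b) ≠ f m := by
  by_contra hcon
  rw [not_eventually] at hcon
  have hfr : ∃ᶠ m : ℕ in atTop, FB (a * m + b) = f m := by
    simpa using hcon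
  have hT : Tendsto (fun n : ℕ => a * n + b) atTop atTop :=
    tendsto_atTop_mono (fun n => by simp only [id]; nlinarith) tendsto_id
  -- the logarithmic ratio
  set u : ℕ → ℝ := fun n => log (FB n / CF n) with hu
  have hu0 : Tendsto u atTop (𝓝 0) := by
    have h := ball_asymp.log one_ne_zero
    rw [log_one] at h
    exact h
  have hlow : ∀ᶠ n : ℕ in atTop, (log (n : ℝ)) ^ 2 / (16 * n) ≤ u n := by
    filter_upwards [ball_lower] with n hn
    have h1 := log_le_log (exp_pos _) hn
    rw [log_exp] at h1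
    exact h1
  set g : ℕ → ℝ := fun m => Real.log (f m) + (-1) * Real.log (CF (a * m + b)) with hg
  have hgW : HasW g := hf.2.add ((Inv.CF.subst ha b).2.smul (-1))
  have hgu : ∃ᶠ m in atTop, g m = (u ∘ fun n : ℕ => a * n + b) m := by
    refine (hfr.and_eventually (hf.1.and (eventually_gt_atTop b))).mono ?_
    rintro m ⟨h1, h2, h3⟩
    have hpos : 0 < CF (a * m + b) := CF_pos (by nlinarith)
    simp only [hg, hu, Function.comp_apply]
    rw [h1, Real.log_div h2.ne' hpos.ne']
    ring
  have hsmall := hgW.small (hu0.comp hT) hgu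
  obtain ⟨C, hC, hb⟩ := hsmall.exists_pos
  rw [IsBigOWith] at hb
  -- along the frequent set the ratio is at least (log m)^2 / m
  have hlow2 := hT.eventually hlow
  have hlog : Tendsto (fun n : ℕ => (log ((a * n + b : ℕ) : ℝ)) ^ 2) atTop atTop := by
    have h1 : Tendsto (fun n : ℕ => log ((a * n + b : ℕ) : ℝ)) atTop atTop :=
      tendsto_log_atTop.comp (tendsto_natCast_atTop_atTop.comp hT)
    exact (tendsto_pow_atTop two_ne_zero).comp h1
  have hbig := hlog.eventually_gt_atTop (16 * (a + b) * C)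
  obtain ⟨m, h1, h2, h3, h4, h5⟩ :=
    (hgu.and_eventually (hb.and (hlow2.and (hbig.and (eventually_ge_atTop 1))))).exists
  rw [h1] at h2
  rw [norm_of_nonneg (e_pos _ _).le] at h2
  have h6 : (log ((a * m + b : ℕ) : ℝ)) ^ 2 / (16 * ((a * m + b : ℕ) : ℝ)) ≤ C * e (-1) m := by
    refine le_trans h3 (le_trans (le_norm_self _) h2)
  have hm0 : (0 : ℝ) < ((a * m + b : ℕ) : ℝ) := by
    have : 0 < a * m + b := by nlinarith
    exact_mod_cast this
  unfold e at h6
  rw [zpow_neg_one, div_le_iff₀ (by positivity), mul_assoc, inv_mul_eq_div] at h6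
  have hmm := base_pos m
  have h7 : (16 * ((a * m + b : ℕ) : ℝ)) / ((m : ℝ) + 1) ≤ 16 * (a + b) := by
    rw [div_le_iff₀ hmm]
    push_cast
    have ha0 : (0 : ℝ) ≤ a := Nat.cast_nonneg _
    have hb0 : (0 : ℝ) ≤ b := Nat.cast_nonneg _
    have hm1 : (0 : ℝ) ≤ m := Nat.cast_nonneg _
    nlinarith [mul_nonneg hb0 hm1]
  have h8 : C * (16 * ((a * m + b : ℕ) : ℝ) / ((m : ℝ) + 1)) ≤ C * (16 * (a + b)) := by gcongr
  linarith

end Pool.Agent.Helper44.NCF
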